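import Mathlib

set_option autoImplicit false

/-!
# The classes excluded by the sieve: `0` and the nontrivial `l`-th roots of unity
-/

namespace Pool.Agent.N672.Opn
open Finset

/-- the excluded classes modulo `r` -/
def Cl (l r : ℕ) : Finset ℕ :=
  (range r).filter (fun a => a = 0 ∨ (r ≡ 1 [MOD l] ∧ r ∣ ∑ i ∈ range l, a ^ i))

lemma Cl_sub (l r : ℕ) : Cl l r ⊆ range r := filter_subset _ _

lemma Cl_card_ne {l r : ℕ} (hr : 0 < r) (h : ¬ r ≡ 1 [MOD l]) : (Cl l r).card = 1 := by
  have : Cl l r = {0} := by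
    ext a
    rw [Cl, mem_filter, mem_range, mem_singleton]
    constructor
    · rintro ⟨_, h1 | ⟨h1, _⟩⟩
      · exact h1
      · exact absurd h1 h
    · rintro rfl
      exact ⟨hr, Or.inl rfl⟩
  rw [this, card_singleton]

lemma Cl_card_one {l r : ℕ} (hl : l.Prime) (hr : r.Prime) (h : r ≡ 1 [MOD l]) :
    (Cl l r).card = l := by
  classical
  have : Fact r.Prime := ⟨hr⟩
  have hlr : l < r := by
    have h1 : l ∣ r - 1 := (Nat.modEq_iff_dvd' hr.one_lt.le).1 h.symm
    have h2 : l ≤ r - 1 := Nat.le_of_dvd (by have := hr.one_lt; omega) h1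
    have := hr.one_lt
    omega
  have hl0 : (l : ZMod r) ≠ 0 := by
    intro h1
    rw [ZMod.natCast_eq_zero_iff] at h1
    exact absurd (Nat.le_of_dvd hl.pos h1) (by omega)
  -- a primitive root
  obtain ⟨u, hu⟩ : ∃ u : (ZMod r)ˣ, orderOf u = l := by
    have : Fact l.Prime := ⟨hl⟩
    apply exists_prime_orderOf_dvd_card
    rw [ZMod.card_units_eq_totient, Nat.totient_prime hr]
    exact (Nat.modEq_iff_dvd' hr.one_lt.le).1 h.symm
  have hprim : IsPrimitiveRoot (u : ZMod r) l := by
    rw [IsPrimitiveRoot.coe_units_iff, ← hu]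
    exact IsPrimitiveRoot.orderOf u
  have hcard := hprim.card_nthRootsFinset
  set R : Finset (ZMod r) := Polynomial.nthRootsFinset l (1 : ZMod r) with hR
  have hmem : ∀ x : ZMod r, x ∈ R ↔ x ^ l = 1 := fun x => by
    rw [hR, Polynomial.mem_nthRootsFinset hl.pos]
  have hroot : ∀ x : ZMod r, (∑ i ∈ range l, x ^ i = 0) ↔ (x ∈ R ∧ x ≠ 1) := by
    intro x
    rw [hmem]
    constructor
    · intro h1
      refine ⟨?_, ?_⟩
      · have := geom_sum_mul x l
        rw [h1, zero_mul] at this
        exact (sub_eq_zero.1 this.symm)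
      · rintro rfl
        simp at h1
        exact hl0 h1
    · rintro ⟨h1, h2⟩
      have := geom_sum_mul x l
      rw [h1, sub_self] at this
      exact (mul_eq_zero.1 this).resolve_right (sub_ne_zero.2 h2)
  have h0 : (0 : ZMod r) ∉ R.erase 1 := by
    rw [mem_erase, hmem]
    rintro ⟨_, h1⟩
    rw [zero_pow hl.ne_zero] at h1
    exact zero_ne_one h1
  have hcard2 : (insert 0 (R.erase 1)).card = l := by
    rw [card_insert_of_notMem h0, card_erase_of_mem, hcard]
    · have := hl.pos; omega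
    · rw [hmem, one_pow]
  refine Eq.trans ?_ hcard2
  refine card_bij' (fun a _ => (a : ZMod r)) (fun x _ => x.val) ?_ ?_ ?_ ?_
  · intro a ha
    obtain ⟨h1, h2⟩ := mem_filter.1 ha
    rw [mem_insert]
    rcases h2 with rfl | ⟨_, h3⟩
    · left; simp
    · right
      rw [mem_erase]
      have h4 : (∑ i ∈ range l, (a : ZMod r) ^ i) = 0 := by
        have := (ZMod.natCast_eq_zero_iff _ _).2 h3
        push_cast at this
        exact this
      have h5 := (hroot _).1 h4
      exact ⟨h5.2, h5.1⟩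
  · intro x hx
    rw [Cl, mem_filter, mem_range]
    refine ⟨ZMod.val_lt x, ?_⟩
    rcases mem_insert.1 hx with rfl | h1
    · left; simp
    · right
      rw [mem_erase] at h1
      refine ⟨h, ?_⟩
      rw [← ZMod.natCast_eq_zero_iff]
      push_cast
      rw [ZMod.natCast_zmod_val]
      exact (hroot x).2 ⟨h1.2, h1.1⟩
  · intro a ha
    obtain ⟨h1, _⟩ := mem_filter.1 ha
    exact ZMod.val_cast_of_lt (mem_range.1 h1)
  · intro x _
    exact ZMod.natCast_zmod_val x

/-- an integer which is not in the excluded classes -/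
lemma mod_notMem {l r n : ℕ} (h1 : ¬ r ∣ n) (h2 : r ≡ 1 [MOD l] → ¬ r ∣ ∑ i ∈ range l, n ^ i) :
    n % r ∉ Cl l r := by
  intro h
  rw [Cl, mem_filter] at h
  rcases h.2 with h3 | ⟨h3, h4⟩
  · exact h1 (Nat.dvd_of_mod_eq_zero h3)
  · apply h2 h3
    have h5 : (∑ i ∈ range l, (n % r) ^ i) ≡ ∑ i ∈ range l, n ^ i [MOD r] := by
      have : ∀ k : ℕ, (∑ i ∈ range k, (n % r) ^ i) ≡ ∑ i ∈ range k, n ^ i [MOD r] := by
        intro k
        induction k with
        | zero => exact Nat.ModEq.refl _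
        | succ k ih =>
          rw [sum_range_succ, sum_range_succ]
          exact ih.add ((Nat.mod_modEq n r).pow k)
      exact this l
    exact (h5.dvd_iff (dvd_refl r)).1 h4

end Pool.Agent.N672.Opn
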