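import Mathlib
import Pool.Agent.H442R2.EHI.Fourier
import Pool.Agent.Y959.Sv.Cyc

set_option autoImplicit false

/-!
# Reciprocals of the primes in the class `1` modulo a prime `l`, uniformly in `l`
-/

namespace Pool.Agent.N672.Opn
open Finset

/-- summation by parts -/
lemma by_parts (c : ℕ → ℝ) (z : ℕ) (hz : 1 ≤ z) (y : ℕ) (hzy : z ≤ y) :
    ∑ n ∈ Ioc z y, c n / n = (∑ n ∈ Icc 1 y, c n) / ((y : ℝ) + 1) -
      (∑ n ∈ Icc 1 z, c n) / ((z : ℝ) + 1) +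
      ∑ n ∈ Ioc z y, (∑ m ∈ Icc 1 n, c m) * (1 / (n : ℝ) - 1 / ((n : ℝ) + 1)) := by
  induction y, hzy using Nat.le_induction with
  | base => simp
  | succ y hzy ih =>
    have h1 : Ioc z (y + 1) = insert (y + 1) (Ioc z y) := by
      ext n; simp only [mem_Ioc, mem_insert]; omega
    have h2 : Icc 1 (y + 1) = insert (y + 1) (Icc 1 y) := by
      ext n; simp only [mem_Icc, mem_insert]; omega
    rw [h1, sum_insert (by simp), sum_insert (by simp), ih, h2, sum_insert (by simp)]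
    push_cast
    have a1 : (y : ℝ) + 1 ≠ 0 := by positivity
    have a2 : (y : ℝ) + 1 + 1 ≠ 0 := by positivity
    field_simp
    ring

lemma harm_le (z y : ℕ) : ∑ n ∈ Ioc z y, 1 / ((n : ℝ) + 1) ≤ 1 + Real.log ((y : ℝ) + 1) := by
  have h1 : ∑ n ∈ Ioc z y, 1 / ((n : ℝ) + 1) ≤ ∑ n ∈ range (y + 1), 1 / ((n : ℝ) + 1) := by
    apply sum_le_sum_of_subset_of_nonneg
    · intro n hn
      rw [mem_Ioc] at hn
      rw [mem_range]; omega
    · intro n _ _; positivity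
  have h2 := harmonic_le_one_add_log (y + 1)
  rw [harmonic] at h2
  push_cast at h2
  refine h1.trans (le_trans (le_of_eq ?_) h2)
  apply sum_congr rfl
  intro n _
  rw [one_div]

lemma parts_bound (c : ℕ → ℝ) (z y : ℕ) (hz : 1 ≤ z) (hzy : z ≤ y) (B : ℝ) (hB : 0 ≤ B)
    (h : ∀ n : ℕ, z ≤ n → n ≤ y → |∑ m ∈ Icc 1 n, c m| ≤ B * n) :
    |∑ n ∈ Ioc z y, c n / n| ≤ B * (3 + Real.log ((y : ℝ) + 1)) := by
  rw [by_parts c z hz y hzy]
  have e1 : |(∑ n ∈ Icc 1 y, c n) / ((y : ℝ) + 1)| ≤ B := by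
    rw [abs_div, abs_of_pos (by positivity : (0 : ℝ) < y + 1), div_le_iff₀ (by positivity)]
    refine (h y hzy le_rfl).trans ?_
    nlinarith
  have e2 : |(∑ n ∈ Icc 1 z, c n) / ((z : ℝ) + 1)| ≤ B := by
    rw [abs_div, abs_of_pos (by positivity : (0 : ℝ) < z + 1), div_le_iff₀ (by positivity)]
    refine (h z le_rfl hzy).trans ?_
    nlinarith
  have e3 : |∑ n ∈ Ioc z y, (∑ m ∈ Icc 1 n, c m) * (1 / (n : ℝ) - 1 / ((n : ℝ) + 1))| ≤
      B * (1 + Real.log ((y : ℝ) + 1)) := by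
    calc |∑ n ∈ Ioc z y, (∑ m ∈ Icc 1 n, c m) * (1 / (n : ℝ) - 1 / ((n : ℝ) + 1))|
        ≤ ∑ n ∈ Ioc z y, |(∑ m ∈ Icc 1 n, c m) * (1 / (n : ℝ) - 1 / ((n : ℝ) + 1))| :=
          abs_sum_le_sum_abs _ _
      _ ≤ ∑ n ∈ Ioc z y, B * (1 / ((n : ℝ) + 1)) := by
          apply sum_le_sum
          intro n hn
          rw [mem_Ioc] at hn
          have hn0 : (0 : ℝ) < n := by exact_mod_cast (by omega : 0 < n)
          have h4 : (1 / (n : ℝ) - 1 / (n + 1)) = 1 / (n * (n + 1)) := by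
            field_simp
            ring
          rw [h4, abs_mul, abs_of_pos (by positivity : (0 : ℝ) < 1 / (n * (n + 1)))]
          calc |∑ m ∈ Icc 1 n, c m| * (1 / ((n : ℝ) * (n + 1)))
              ≤ B * n * (1 / ((n : ℝ) * (n + 1))) :=
                mul_le_mul_of_nonneg_right (h n (by omega) hn.2) (by positivity)
            _ = B * (1 / ((n : ℝ) + 1)) := by field_simp
      _ = B * ∑ n ∈ Ioc z y, (1 / ((n : ℝ) + 1)) := by rw [mul_sum]
      _ ≤ _ := mul_le_mul_of_nonneg_left (harm_le z y) hB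
  calc |(∑ n ∈ Icc 1 y, c n) / ((y : ℝ) + 1) - (∑ n ∈ Icc 1 z, c n) / ((z : ℝ) + 1) +
        ∑ n ∈ Ioc z y, (∑ m ∈ Icc 1 n, c m) * (1 / (n : ℝ) - 1 / ((n : ℝ) + 1))|
      ≤ |(∑ n ∈ Icc 1 y, c n) / ((y : ℝ) + 1)| + |(∑ n ∈ Icc 1 z, c n) / ((z : ℝ) + 1)| +
        |∑ n ∈ Ioc z y, (∑ m ∈ Icc 1 n, c m) * (1 / (n : ℝ) - 1 / ((n : ℝ) + 1))| :=
        (abs_add_le _ _).trans (add_le_add (abs_sub _ _) le_rfl)
    _ ≤ B + B + B * (1 + Real.log ((y : ℝ) + 1)) := by linarith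
    _ = _ := by ring

open Pool.Agent.Y959.Sv (Pz mem_Pz)

/-- Siegel-Walfisz for the sum of the reciprocals of the primes `≡ 1` modulo `l` -/
theorem sum_ap (U K : ℕ) : ∃ z0 : ℕ, 3 ≤ z0 ∧ ∀ z y l : ℕ, z0 ≤ z → z ≤ y → l.Prime →
    (l : ℝ) ≤ Real.log z ^ K →
    |∑ r ∈ (Pz z y).filter (fun r => r ≡ 1 [MOD l]), ((l : ℝ) - 1) / r -
      ∑ r ∈ Pz z y, 1 / (r : ℝ)| ≤
      Real.log z ^ K / Real.log z ^ U * (3 + Real.log ((y : ℝ) + 1)) := by
  obtain ⟨y0, hsw⟩ := Pool.Agent.H442R2.EHI.Four8.sw U K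
  refine ⟨max y0 3, le_max_right _ _, fun z y l hz hzy hl hlz => ?_⟩
  have hz0 : y0 ≤ z := (le_max_left _ _).trans hz
  have hz3 : 3 ≤ z := (le_max_right _ _).trans hz
  have hzr : (3 : ℝ) ≤ z := by exact_mod_cast hz3
  have hlogz : 0 < Real.log z := Real.log_pos (by linarith)
  have hl1 : (2 : ℝ) ≤ l := by exact_mod_cast hl.two_le
  set c : ℕ → ℝ := fun n => if n.Prime then ((if n ≡ 1 [MOD l] then (l : ℝ) - 1 else 0) - 1) else 0
    with hc
  have hsum : ∑ r ∈ (Pz z y).filter (fun r => r ≡ 1 [MOD l]), ((l : ℝ) - 1) / r -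
      ∑ r ∈ Pz z y, 1 / (r : ℝ) = ∑ n ∈ Ioc z y, c n / n := by
    rw [sum_filter, ← sum_sub_distrib, Pz, sum_filter]
    apply sum_congr rfl
    intro n _
    simp only [hc]
    split_ifs <;> ring
  rw [hsum]
  apply parts_bound c z y (by omega) hzy _ (by positivity)
  intro n hzn hny
  have hnr : (3 : ℝ) ≤ n := by exact_mod_cast hz3.trans hzn
  have hlogn : Real.log z ≤ Real.log n := Real.log_le_log (by linarith) (by exact_mod_cast hzn)
  have h1 := hsw n (hz0.trans hzn) l hl.one_lt.le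
    (hlz.trans (pow_le_pow_left₀ hlogz.le hlogn K)) 1 hl.one_lt (Nat.coprime_one_left l)
  rw [Nat.totient_prime hl, Nat.cast_sub hl.one_lt.le, Nat.cast_one] at h1
  have e1 : ∑ m ∈ Icc 1 n, c m = ((l : ℝ) - 1) * H343E.piAP n l 1 - H343E.pi1 n := by
    unfold H343E.piAP H343E.pi1
    rw [card_filter, card_filter]
    push_cast
    rw [mul_sum, ← sum_sub_distrib]
    apply sum_congr rfl
    intro m _
    simp only [hc]
    by_cases h1 : m.Prime <;> by_cases h2 : m ≡ 1 [MOD l] <;> simp [h1, h2]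
  have e2 : ((l : ℝ) - 1) * H343E.piAP n l 1 - H343E.pi1 n =
      ((l : ℝ) - 1) * (H343E.piAP n l 1 - H343E.pi1 n / ((l : ℝ) - 1)) := by
    have : (l : ℝ) - 1 ≠ 0 := by linarith
    field_simp
  rw [e1, e2, abs_mul, abs_of_pos (by linarith : (0 : ℝ) < (l : ℝ) - 1)]
  calc ((l : ℝ) - 1) * |H343E.piAP n l 1 - H343E.pi1 n / ((l : ℝ) - 1)|
      ≤ Real.log z ^ K * (n / Real.log n ^ U) := by
        apply mul_le_mul (by linarith) h1 (abs_nonneg _) (by positivity)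
    _ ≤ Real.log z ^ K * (n / Real.log z ^ U) := by
        apply mul_le_mul_of_nonneg_left _ (by positivity)
        apply div_le_div_of_nonneg_left (by linarith) (by positivity)
        exact pow_le_pow_left₀ hlogz.le hlogn U
    _ = _ := by ring

end Pool.Agent.N672.Opn
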