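import Mathlib
import Pool.Agent.H174R3.D6.TaskLS

set_option autoImplicit false

/-!
# An upper bound sieve from the large sieve in variance form
-/

namespace Pool.Agent.N672.Opn
open Finset

/-- **Upper bound sieve.** -/
theorem sieve_le (X Q k y : ℕ) (P : Finset ℕ) (I : ℕ → Finset ℕ)
    (hP : ∀ q ∈ P, q.Prime) (hy : ∀ q ∈ P, q ≤ y) (hI : ∀ q ∈ P, I q ⊆ range q)
    (hQ : y ^ k ≤ Q) (hy1 : 1 ≤ y)
    (hG : 2 * ∏ q ∈ P, (1 + ((I q).card : ℝ) / q) ≤ 2 ^ k) :
    (((Icc 1 X).filter (fun n => ∀ q ∈ P, n % q ∉ I q)).card : ℝ) *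
      ∏ q ∈ P, (1 + ((I q).card : ℝ) / q) ≤ 12 * ((X : ℝ) + (Q : ℝ) ^ 2) := by
  classical
  set g : ℕ → ℝ := fun q => ((I q).card : ℝ) / q with hg
  have hg0 : ∀ q, 0 ≤ g q := fun q => by simp only [hg]; positivity
  set S : Finset (Finset ℕ) := P.powerset.filter (fun s => s.card ≤ k) with hS
  set G : ℝ := ∑ s ∈ S, ∏ q ∈ s, g q with hGdef
  set F : ℝ := ∏ q ∈ P, (1 + g q) with hF
  have hF1 : 1 ≤ F := by
    calc (1 : ℝ) = ∏ _q ∈ P, (1 : ℝ) := by rw [Finset.prod_const_one]
      _ ≤ ∏ q ∈ P, (1 + g q) := prod_le_prod (fun _ _ => zero_le_one)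
          (fun q _ => by have := hg0 q; linarith)
  -- the lower bound for `G`
  have hGF : F ≤ 2 * G := by
    have h1 : F = G + ∑ s ∈ P.powerset.filter (fun s => ¬ s.card ≤ k), ∏ q ∈ s, g q := by
      rw [hF, Finset.prod_one_add, hGdef, hS, Finset.sum_filter_add_sum_filter_not]
    have h2 : ∑ s ∈ P.powerset.filter (fun s => ¬ s.card ≤ k), ∏ q ∈ s, g q ≤
        (1 / 2 ^ k) * F ^ 2 := by
      calc ∑ s ∈ P.powerset.filter (fun s => ¬ s.card ≤ k), ∏ q ∈ s, g q
          ≤ ∑ s ∈ P.powerset.filter (fun s => ¬ s.card ≤ k), (1 / 2 ^ k) * ∏ q ∈ s, (2 * g q) := by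
            apply sum_le_sum
            intro s hs
            have h3 := (mem_filter.1 hs).2
            rw [prod_mul_distrib, prod_const, ← mul_assoc]
            have h4 : (1 : ℝ) ≤ 1 / 2 ^ k * 2 ^ s.card := by
              rw [one_div, inv_mul_eq_div, le_div_iff₀ (by positivity), one_mul]
              exact pow_le_pow_right₀ (by norm_num) (by omega)
            have h5 : 0 ≤ ∏ q ∈ s, g q := prod_nonneg (fun q _ => hg0 q)
            nlinarith
        _ ≤ ∑ s ∈ P.powerset, (1 / 2 ^ k) * ∏ q ∈ s, (2 * g q) := by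
            apply sum_le_sum_of_subset_of_nonneg (filter_subset _ _)
            intro s _ _
            apply mul_nonneg (by positivity)
            exact prod_nonneg (fun q _ => by have := hg0 q; positivity)
        _ = (1 / 2 ^ k) * ∏ q ∈ P, (1 + 2 * g q) := by
            rw [← mul_sum, Finset.prod_one_add]
        _ ≤ (1 / 2 ^ k) * F ^ 2 := by
            apply mul_le_mul_of_nonneg_left _ (by positivity)
            rw [hF, ← prod_pow]
            apply prod_le_prod
            · intro q _; have := hg0 q; positivity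
            · intro q _; have := hg0 q; nlinarith [sq_nonneg (g q)]
    have h3 : (1 / 2 ^ k) * F ^ 2 ≤ F / 2 := by
      have h4 : 2 * F ≤ 2 ^ k := hG
      have h5 : (0 : ℝ) < 2 ^ k := by positivity
      rw [one_div, inv_mul_eq_div, div_le_div_iff₀ h5 (by norm_num)]
      nlinarith
    linarith
  have hG0 : 0 < G := by linarith
  -- the large sieve
  have hls := Pool.Agent.H174R3.D6LS.taskLS X Q P I S (fun s => (-1) ^ s.card) hP hI (by
    intro s hs
    obtain ⟨h1, h2⟩ := mem_filter.1 hs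
    rw [mem_powerset] at h1
    refine ⟨h1, ?_⟩
    calc ∏ q ∈ s, q ≤ ∏ _q ∈ s, y := prod_le_prod' (fun q hq => hy q (h1 hq))
      _ = y ^ s.card := by rw [prod_const]
      _ ≤ y ^ k := Nat.pow_le_pow_right hy1 h2
      _ ≤ Q := hQ)
  have h1 : ∑ s ∈ S, ((-1 : ℝ) ^ s.card) ^ 2 * ∏ q ∈ s, ((I q).card : ℝ) / q = G := by
    rw [hGdef]
    apply sum_congr rfl
    intro s _
    have h6 : ((-1 : ℝ) ^ s.card) ^ 2 = 1 := by
      rw [← pow_mul, mul_comm, pow_mul, neg_one_sq, one_pow]
    rw [h6, one_mul]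
  rw [h1] at hls
  set A := (Icc 1 X).filter (fun n => ∀ q ∈ P, n % q ∉ I q) with hA
  have h2 : (A.card : ℝ) * G ^ 2 ≤ 6 * ((X : ℝ) + (Q : ℝ) ^ 2) * G := by
    refine le_trans ?_ hls
    rw [← nsmul_eq_mul, ← sum_const]
    calc ∑ _n ∈ A, G ^ 2 = ∑ n ∈ A, (∑ s ∈ S, (-1 : ℝ) ^ s.card * ∏ q ∈ s,
          ((if n % q ∈ I q then (1 : ℝ) else 0) - ((I q).card : ℝ) / q)) ^ 2 := by
          apply sum_congr rfl
          intro n hn
          congr 1
          rw [hGdef]
          apply sum_congr rfl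
          intro s hs
          obtain ⟨h3, h4⟩ := mem_filter.1 hs
          rw [mem_powerset] at h3
          rw [← prod_const, ← prod_mul_distrib]
          apply prod_congr rfl
          intro q hq
          rw [if_neg ((mem_filter.1 hn).2 q (h3 hq))]
          simp only [hg]
          ring
      _ ≤ _ := by
          apply sum_le_sum_of_subset_of_nonneg (filter_subset _ _)
          intro n _ _
          positivity
  have h3 : (A.card : ℝ) * G ≤ 6 * ((X : ℝ) + (Q : ℝ) ^ 2) := by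
    have h4 : (A.card : ℝ) * G * G ≤ 6 * ((X : ℝ) + (Q : ℝ) ^ 2) * G := by
      calc (A.card : ℝ) * G * G = A.card * G ^ 2 := by ring
        _ ≤ _ := h2
    exact le_of_mul_le_mul_right h4 hG0
  calc (A.card : ℝ) * F ≤ A.card * (2 * G) := mul_le_mul_of_nonneg_left hGF (Nat.cast_nonneg _)
    _ = 2 * (A.card * G) := by ring
    _ ≤ 2 * (6 * ((X : ℝ) + (Q : ℝ) ^ 2)) := by linarith
    _ = _ := by ring

end Pool.Agent.N672.Opn
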