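import Mathlib
import Pool.Agent.N672.Opn.MertAP
import Pool.Agent.N672.Opn.Sieve
import Pool.Agent.N672.Opn.Cl

set_option autoImplicit false

/-!
# Sifting by `0` and the nontrivial `l`-th roots of unity, uniformly in the prime `l`
-/

namespace Pool.Agent.N672.Opn
open Finset Filter
open Pool.Agent.Y959.Sv (Pz mem_Pz)

lemma sum_sq_le (z y : ℕ) (hz : 1 ≤ z) (hzy : z ≤ y) : ∑ r ∈ Pz z y, 1 / (r : ℝ) ^ 2 ≤ 1 / (z : ℝ) := by
  have h1 : ∑ r ∈ Pz z y, 1 / (r : ℝ) ^ 2 ≤ ∑ r ∈ Ioc z y, ((r : ℝ) ^ 2)⁻¹ := by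
    rw [Pz]
    refine le_trans (sum_le_sum_of_subset_of_nonneg (filter_subset _ _) (fun r _ _ => by positivity))
      (le_of_eq (sum_congr rfl (fun r _ => by rw [one_div])))
  have h2 := sum_Ioc_inv_sq_le_sub (α := ℝ) (k := z) (n := y) (by omega) hzy
  have h3 : (0 : ℝ) ≤ (y : ℝ)⁻¹ := by positivity
  rw [one_div]
  linarith

/-- the sieve bound in terms of the parameters -/
theorem core {C0 : ℝ} (z y l k Q X : ℕ) (hl : l.Prime) (hz : 3 ≤ z)
    (hzy : z ≤ y)
    (hS : |∑ r ∈ (Pz z y).filter (fun r => r ≡ 1 [MOD l]), ((l : ℝ) - 1) / r -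
      ∑ r ∈ Pz z y, 1 / (r : ℝ)| ≤ 1)
    (hM : |∑ r ∈ Pz z y, 1 / (r : ℝ) - Real.log (Real.log y / Real.log z)| ≤ C0)
    (hlz : l ^ 2 ≤ z)
    (hk : 2 * Real.exp (2 * Real.log (Real.log y / Real.log z) + 2 * C0 + 1) ≤ 2 ^ k)
    (hQ : y ^ k ≤ Q) (hX : Q ^ 2 ≤ X) :
    (((Icc 1 X).filter (fun n => ∀ r ∈ Pz z y, n % r ∉ Cl l r)).card : ℝ) ≤
      24 * Real.exp (2 * C0 + 2) * X * (Real.log z / Real.log y) ^ 2 := by
  classical
  set g : ℕ → ℝ := fun r => ((Cl l r).card : ℝ) / r with hg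
  have hl2 : (2 : ℝ) ≤ l := by exact_mod_cast hl.two_le
  have hgr : ∀ r ∈ Pz z y, g r = 1 / (r : ℝ) + (if r ≡ 1 [MOD l] then ((l : ℝ) - 1) / r else 0) := by
    intro r hr
    obtain ⟨_, hrp⟩ := mem_Pz.1 hr
    simp only [hg]
    split_ifs with h
    · rw [Cl_card_one hl hrp h, ← add_div]; congr 1; ring
    · rw [Cl_card_ne hrp.pos h, add_zero, Nat.cast_one]
  have hsum : ∑ r ∈ Pz z y, g r = ∑ r ∈ Pz z y, 1 / (r : ℝ) +
      ∑ r ∈ (Pz z y).filter (fun r => r ≡ 1 [MOD l]), ((l : ℝ) - 1) / r := by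
    rw [sum_congr rfl hgr, sum_add_distrib, sum_filter]
  have hg0 : ∀ r, 0 ≤ g r := fun r => by simp only [hg]; positivity
  have hgl : ∀ r ∈ Pz z y, g r ≤ l / r := by
    intro r hr
    obtain ⟨_, hrp⟩ := mem_Pz.1 hr
    have hr0 : (0 : ℝ) < r := by exact_mod_cast hrp.pos
    rw [hgr r hr]
    split_ifs with h
    · rw [← add_div]
      apply div_le_div_of_nonneg_right _ hr0.le
      linarith
    · rw [add_zero]
      apply div_le_div_of_nonneg_right _ hr0.le
      linarith
  set T := Real.log (Real.log y / Real.log z) with hT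
  have hM' := abs_le.1 hM
  have hS' := abs_le.1 hS
  -- upper bound for the product
  have hup : ∏ r ∈ Pz z y, (1 + g r) ≤ Real.exp (2 * T + 2 * C0 + 1) := by
    calc ∏ r ∈ Pz z y, (1 + g r) ≤ ∏ r ∈ Pz z y, Real.exp (g r) := by
          apply Finset.prod_le_prod
          · intro r _; have := hg0 r; linarith
          · intro r _
            have := Real.add_one_le_exp (g r)
            linarith
      _ = Real.exp (∑ r ∈ Pz z y, g r) := by rw [Real.exp_sum]
      _ ≤ _ := by
          apply Real.exp_le_exp.2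
          rw [hsum]
          linarith [hM'.2, hS'.2]
  -- lower bound for the product
  have hlow : Real.exp (2 * T - 2 * C0 - 2) ≤ ∏ r ∈ Pz z y, (1 + g r) := by
    calc Real.exp (2 * T - 2 * C0 - 2) ≤ Real.exp (∑ r ∈ Pz z y, (g r - g r ^ 2)) := by
          apply Real.exp_le_exp.2
          rw [sum_sub_distrib, hsum]
          have h1 : ∑ r ∈ Pz z y, g r ^ 2 ≤ 1 := by
            calc ∑ r ∈ Pz z y, g r ^ 2 ≤ ∑ r ∈ Pz z y, (l : ℝ) ^ 2 * (1 / (r : ℝ) ^ 2) := by
                  apply sum_le_sum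
                  intro r hr
                  have h2 := hgl r hr
                  calc g r ^ 2 ≤ (l / r) ^ 2 := pow_le_pow_left₀ (hg0 r) h2 2
                    _ = (l : ℝ) ^ 2 * (1 / (r : ℝ) ^ 2) := by rw [div_pow]; ring
              _ = (l : ℝ) ^ 2 * ∑ r ∈ Pz z y, 1 / (r : ℝ) ^ 2 := by rw [mul_sum]
              _ ≤ (l : ℝ) ^ 2 * (1 / z) :=
                  mul_le_mul_of_nonneg_left (sum_sq_le z y (by omega) hzy) (by positivity)
              _ ≤ 1 := by
                  have hz0 : (0 : ℝ) < z := by exact_mod_cast (by omega : 0 < z)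
                  rw [mul_one_div, div_le_one hz0]
                  exact_mod_cast hlz
          linarith [hM'.1, hS'.1]
      _ = ∏ r ∈ Pz z y, Real.exp (g r - g r ^ 2) := by rw [Real.exp_sum]
      _ ≤ _ := by
          apply Finset.prod_le_prod (fun r _ => (Real.exp_pos _).le)
          intro r _
          have h1 := hg0 r
          have h2 : g r - g r ^ 2 ≤ Real.log (1 + g r) := by
            have h3 := Real.one_sub_inv_le_log_of_pos (x := 1 + g r) (by linarith)
            have h4 : g r - g r ^ 2 ≤ 1 - (1 + g r)⁻¹ := by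
              have h5 : 1 - (1 + g r)⁻¹ = g r / (1 + g r) := by
                have : 1 + g r ≠ 0 := by linarith
                field_simp
                ring
              rw [h5, le_div_iff₀ (by linarith)]
              nlinarith [pow_nonneg h1 3]
            linarith
          calc Real.exp (g r - g r ^ 2) ≤ Real.exp (Real.log (1 + g r)) := Real.exp_le_exp.2 h2
            _ = 1 + g r := Real.exp_log (by linarith)
  have hsv := sieve_le X Q k y (Pz z y) (Cl l) (fun q hq => (mem_Pz.1 hq).2)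
    (fun q hq => (mem_Pz.1 hq).1.2) (fun q _ => Cl_sub l q) hQ (by omega) (by
      refine le_trans ?_ hk
      apply mul_le_mul_of_nonneg_left _ (by norm_num)
      exact hup)
  set U := (((Icc 1 X).filter (fun n => ∀ r ∈ Pz z y, n % r ∉ Cl l r)).card : ℝ) with hU
  have hU0 : 0 ≤ U := Nat.cast_nonneg _
  have h1 : U * Real.exp (2 * T - 2 * C0 - 2) ≤ 24 * X := by
    have h2 : (Q : ℝ) ^ 2 ≤ X := by exact_mod_cast hX
    calc U * Real.exp (2 * T - 2 * C0 - 2) ≤ U * ∏ r ∈ Pz z y, (1 + g r) :=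
          mul_le_mul_of_nonneg_left hlow hU0
      _ ≤ 12 * ((X : ℝ) + (Q : ℝ) ^ 2) := hsv
      _ ≤ 24 * X := by linarith
  have hlz0 : 0 < Real.log z := Real.log_pos (by exact_mod_cast (by omega : 1 < z))
  have hly0 : 0 < Real.log y := Real.log_pos (by exact_mod_cast (by omega : 1 < y))
  have h2 : Real.exp (2 * T - 2 * C0 - 2) =
      (Real.log y / Real.log z) ^ 2 / Real.exp (2 * C0 + 2) := by
    rw [show 2 * T - 2 * C0 - 2 = 2 * T - (2 * C0 + 2) by ring, Real.exp_sub]
    congr 1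
    rw [show 2 * T = T + T by ring, Real.exp_add, hT, Real.exp_log (by positivity)]
    ring
  rw [h2] at h1
  have h3 : (Real.log z / Real.log y) ^ 2 * (Real.log y / Real.log z) ^ 2 = 1 := by
    field_simp
  have h4 : 0 < Real.exp (2 * C0 + 2) := Real.exp_pos _
  calc U = U * ((Real.log y / Real.log z) ^ 2 / Real.exp (2 * C0 + 2)) *
        ((Real.log z / Real.log y) ^ 2 * Real.exp (2 * C0 + 2)) := by
        field_simp
    _ ≤ 24 * X * ((Real.log z / Real.log y) ^ 2 * Real.exp (2 * C0 + 2)) :=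
        mul_le_mul_of_nonneg_right h1 (by positivity)
    _ = _ := by ring

end Pool.Agent.N672.Opn
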