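import Mathlib
import Pool.Agent.N672.Opn.Sift

set_option autoImplicit false

/-!
# The sieve bound, uniformly in `l ≤ (log w) ^ A`
-/

namespace Pool.Agent.N672.Opn
open Finset Filter
open Pool.Agent.Y959.Sv (Pz mem_Pz)

/-- the lower sifting limit `exp ((log w) ^ δ)` -/
noncomputable def Zf (δ : ℝ) (w : ℕ) : ℕ := ⌊Real.exp (Real.log w ^ δ)⌋₊

/-- the upper sifting limit `exp ((log w) ^ (1 - δ))` -/
noncomputable def Yf (δ : ℝ) (w : ℕ) : ℕ := ⌊Real.exp (Real.log w ^ (1 - δ))⌋₊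

lemma ev_log_le (δ : ℝ) (hδ : 0 < δ) (c : ℝ) : ∀ᶠ L : ℝ in atTop, c * Real.log L ≤ L ^ δ := by
  have h1 := ((isLittleO_log_rpow_atTop hδ).const_mul_left c).def (c := 1) one_pos
  filter_upwards [h1, eventually_ge_atTop (1 : ℝ)] with L h2 h3
  rw [one_mul, Real.norm_of_nonneg (Real.rpow_nonneg (by linarith) δ)] at h2
  exact (le_abs_self _).trans h2

lemma half_le_log_floor {a : ℝ} (ha : 2 ≤ a) : a / 2 ≤ Real.log (⌊Real.exp a⌋₊ : ℝ) := by
  have h1 : Real.exp a < ⌊Real.exp a⌋₊ + 1 := Nat.lt_floor_add_one _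
  have h2 : Real.exp (a / 2) ≤ (⌊Real.exp a⌋₊ : ℝ) := by
    have h3 : Real.exp a = Real.exp (a / 2) * Real.exp (a / 2) := by
      rw [← Real.exp_add]; congr 1; ring
    have h4 : 2 ≤ Real.exp (a / 2) := by
      have := Real.add_one_le_exp (a / 2)
      linarith
    nlinarith
  rw [Real.le_log_iff_exp_le (lt_of_lt_of_le (Real.exp_pos _) h2)]
  exact h2

lemma log_floor_le {a : ℝ} (ha : 0 ≤ a) : Real.log (⌊Real.exp a⌋₊ : ℝ) ≤ a := by
  have h1 : (⌊Real.exp a⌋₊ : ℝ) ≤ Real.exp a := Nat.floor_le (Real.exp_pos _).le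
  have h2 : (1 : ℝ) ≤ (⌊Real.exp a⌋₊ : ℝ) := by
    have : 1 ≤ ⌊Real.exp a⌋₊ := by
      rw [Nat.one_le_floor_iff]
      exact Real.one_le_exp ha
    exact_mod_cast this
  calc Real.log (⌊Real.exp a⌋₊ : ℝ) ≤ Real.log (Real.exp a) := Real.log_le_log (by linarith) h1
    _ = a := Real.log_exp a

/-- **The sieve bound.** -/
theorem sift (δ : ℝ) (hδ : 0 < δ) (hδ4 : δ ≤ 1 / 4) (A : ℕ) : ∃ w₀ : ℕ, 3 ≤ w₀ ∧
    ∀ w : ℕ, w₀ ≤ w → 1 ≤ Real.log w ∧ (Yf δ w) ^ 4 ≤ w ∧ 1 ≤ Yf δ w ∧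
    ∀ l : ℕ, l.Prime → (l : ℝ) ≤ Real.log w ^ A →
    ∀ X : ℕ, w ≤ X →
      (((Icc 1 X).filter (fun n => ∀ r ∈ Pz (Zf δ w) (Yf δ w), n % r ∉ Cl l r)).card : ℝ) ≤
        X * Real.log w ^ (5 * δ - 2) := by
  classical
  obtain ⟨C0, hC0, hmert⟩ := Pool.Agent.Helper923.HMertens.mertens_ratio
  set K : ℕ := ⌈((A : ℝ) + 1) / δ⌉₊ with hK
  set M : ℕ := ⌈2 / δ⌉₊ with hM
  have hKδ : (A : ℝ) + 1 ≤ δ * K := by
    have := Nat.le_ceil (((A : ℝ) + 1) / δ)
    rw [div_le_iff₀ hδ] at this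
    linarith
  have hMδ : 2 ≤ δ * M := by
    have := Nat.le_ceil (2 / δ)
    rw [div_le_iff₀ hδ] at this
    linarith
  obtain ⟨z0, hz03, hap⟩ := sum_ap (K + M) K
  have htend : Tendsto (fun w : ℕ => Real.log (w : ℝ)) atTop atTop :=
    Real.tendsto_log_atTop.comp tendsto_natCast_atTop_atTop
  have hev : ∀ᶠ L : ℝ in atTop, 4 ≤ L ^ δ ∧ (z0 : ℝ) + 1 ≤ L ^ δ ∧ 2 ^ K ≤ L ∧ 5 * 2 ^ M ≤ L ∧
      4 * A * Real.log L ≤ L ^ δ ∧ 16 * Real.log L ≤ L ^ δ ∧ 8 * (2 * C0 + 5 / 2) ≤ L ^ δ ∧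
      96 * Real.exp (2 * C0 + 2) ≤ L ^ δ ∧ 1 ≤ L := by
    have h1 := tendsto_rpow_atTop hδ
    filter_upwards [h1.eventually_ge_atTop 4, h1.eventually_ge_atTop ((z0 : ℝ) + 1),
      eventually_ge_atTop ((2 : ℝ) ^ K), eventually_ge_atTop (5 * (2 : ℝ) ^ M),
      ev_log_le δ hδ (4 * A), ev_log_le δ hδ 16, h1.eventually_ge_atTop (8 * (2 * C0 + 5 / 2)),
      h1.eventually_ge_atTop (96 * Real.exp (2 * C0 + 2)), eventually_ge_atTop (1 : ℝ)]
      with L h1 h2 h3 h4 h5 h6 h7 h8 h9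
    exact ⟨h1, h2, h3, h4, h5, h6, h7, h8, h9⟩
  obtain ⟨w1, hw1⟩ := (eventually_atTop.1 (htend.eventually hev))
  refine ⟨max w1 3, le_max_right _ _, fun w hw => ?_⟩
  obtain ⟨f1, f2, f3, f4, f5, f6, f7, f8, f9⟩ := hw1 w ((le_max_left _ _).trans hw)
  have hw3 : 3 ≤ w := (le_max_right _ _).trans hw
  have hw0 : (0 : ℝ) < w := by exact_mod_cast (by omega : 0 < w)
  set L := Real.log (w : ℝ) with hL
  have hL0 : 0 < L := by linarith
  set a : ℝ := L ^ δ with ha
  have ha0 : 0 < a := by linarith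
  have hexpL : Real.exp L = w := by rw [hL, Real.exp_log hw0]
  have hb : L ^ (1 - δ) = L / a := by rw [ha, Real.rpow_sub hL0, Real.rpow_one]
  have hb4 : L ^ (1 - δ) ≤ L / 4 := by
    rw [hb]
    exact div_le_div_of_nonneg_left hL0.le (by norm_num) f1
  have hab : a ≤ L ^ (1 - δ) := by
    rw [ha]
    exact Real.rpow_le_rpow_of_exponent_le f9 (by linarith)
  have hb0 : 0 < L ^ (1 - δ) := Real.rpow_pos_of_pos hL0 _
  set z := Zf δ w with hz
  set y := Yf δ w with hy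
  have hz' : z = ⌊Real.exp a⌋₊ := rfl
  have hy' : y = ⌊Real.exp (L ^ (1 - δ))⌋₊ := rfl
  have hlz1 : a / 2 ≤ Real.log z := by rw [hz']; exact half_le_log_floor (by linarith)
  have hlz2 : Real.log z ≤ a := by rw [hz']; exact log_floor_le ha0.le
  have hly1 : L ^ (1 - δ) / 2 ≤ Real.log y := by rw [hy']; exact half_le_log_floor (by linarith)
  have hly2 : Real.log y ≤ L ^ (1 - δ) := by rw [hy']; exact log_floor_le hb0.le
  have hlz01 : 1 ≤ Real.log z := by linarith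
  have hzz0 : z0 ≤ z := by
    have h1 : (z0 : ℝ) + 1 ≤ Real.exp a := by
      have := Real.add_one_le_exp a
      linarith
    have h2 : Real.exp a < z + 1 := by rw [hz']; exact Nat.lt_floor_add_one _
    have : (z0 : ℝ) < z := by linarith
    exact_mod_cast this.le
  have hz3 : 3 ≤ z := hz03.trans hzz0
  have hzy : z ≤ y := by
    rw [hz', hy']
    exact Nat.floor_le_floor (Real.exp_le_exp.2 hab)
  have hyr : (y : ℝ) ≤ Real.exp (L ^ (1 - δ)) := by
    rw [hy']; exact Nat.floor_le (Real.exp_pos _).le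
  have hy4 : y ^ 4 ≤ w := by
    have h1 : (y : ℝ) ^ 4 ≤ w := by
      calc (y : ℝ) ^ 4 ≤ (Real.exp (L ^ (1 - δ))) ^ 4 := pow_le_pow_left₀ (Nat.cast_nonneg _) hyr 4
        _ = Real.exp (4 * L ^ (1 - δ)) := by rw [← Real.exp_nat_mul]; norm_num
        _ ≤ Real.exp L := Real.exp_le_exp.2 (by linarith)
        _ = w := hexpL
    exact_mod_cast h1
  refine ⟨f9, hy4, by omega, fun l hl hlL X hX => ?_⟩
  -- the size of `l`
  have hlK : (l : ℝ) ≤ Real.log z ^ K := by
    refine hlL.trans ?_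
    calc L ^ A ≤ (a / 2) ^ K := by
          rw [div_pow, le_div_iff₀ (by positivity)]
          calc L ^ A * 2 ^ K ≤ L ^ A * L := mul_le_mul_of_nonneg_left f3 (by positivity)
            _ = L ^ ((A : ℝ) + 1) := by
                rw [← Nat.cast_one, ← Nat.cast_add, Real.rpow_natCast, pow_succ]
            _ ≤ L ^ (δ * K) := Real.rpow_le_rpow_of_exponent_le f9 hKδ
            _ = a ^ K := by rw [ha, Real.rpow_mul hL0.le, Real.rpow_natCast]
      _ ≤ Real.log z ^ K := pow_le_pow_left₀ (by positivity) hlz1 K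
  have hS : |∑ r ∈ (Pz z y).filter (fun r => r ≡ 1 [MOD l]), ((l : ℝ) - 1) / r -
      ∑ r ∈ Pz z y, 1 / (r : ℝ)| ≤ 1 := by
    refine (hap z y l hzz0 hzy hl hlK).trans ?_
    have h1 : Real.log z ^ K / Real.log z ^ (K + M) = 1 / Real.log z ^ M := by
      have : Real.log z ≠ 0 := by linarith
      rw [pow_add]
      field_simp
    have h2 : 1 / Real.log z ^ M ≤ 2 ^ M / L ^ 2 := by
      have h3 : (a / 2) ^ M ≤ Real.log z ^ M := pow_le_pow_left₀ (by positivity) hlz1 M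
      have h4 : L ^ 2 ≤ a ^ M := by
        calc L ^ 2 = L ^ (2 : ℝ) := by rw [← Real.rpow_natCast]; norm_num
          _ ≤ L ^ (δ * M) := Real.rpow_le_rpow_of_exponent_le f9 hMδ
          _ = a ^ M := by rw [ha, Real.rpow_mul hL0.le, Real.rpow_natCast]
      calc 1 / Real.log z ^ M ≤ 1 / (a / 2) ^ M := one_div_le_one_div_of_le (by positivity) h3
        _ = 2 ^ M / a ^ M := by rw [div_pow, one_div_div]
        _ ≤ 2 ^ M / L ^ 2 := div_le_div_of_nonneg_left (by positivity) (by positivity) h4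
    have h3 : 3 + Real.log ((y : ℝ) + 1) ≤ 5 * L := by
      have h4 : Real.log ((y : ℝ) + 1) ≤ L + 1 := by
        have hy1 : (1 : ℝ) ≤ y := by exact_mod_cast (by omega : 1 ≤ y)
        have h5 : Real.log ((y : ℝ) + 1) ≤ Real.log (2 * y) :=
          Real.log_le_log (by linarith) (by linarith)
        rw [Real.log_mul (by norm_num) (by linarith)] at h5
        have h6 := Real.log_two_lt_d9
        have h7 : (4 : ℝ) * L ^ (1 - δ) ≤ L := by linarith
        linarith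
      linarith
    rw [h1]
    have h5 : 0 ≤ 3 + Real.log ((y : ℝ) + 1) := by
      have : 0 ≤ Real.log ((y : ℝ) + 1) := Real.log_nonneg (by linarith [Nat.cast_nonneg (α := ℝ) y])
      linarith
    calc 1 / Real.log z ^ M * (3 + Real.log ((y : ℝ) + 1)) ≤ 2 ^ M / L ^ 2 * (5 * L) :=
          mul_le_mul h2 h3 h5 (by positivity)
      _ = 5 * 2 ^ M / L := by field_simp
      _ ≤ 1 := by rw [div_le_one hL0]; exact f4
  have hMM : |∑ r ∈ Pz z y, 1 / (r : ℝ) - Real.log (Real.log y / Real.log z)| ≤ C0 := by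
    refine (hmert z y (by omega) hzy).trans ?_
    exact div_le_self hC0 hlz01
  have hlz : l ^ 2 ≤ z := by
    have h1 : (l : ℝ) ^ 2 ≤ z := by
      calc (l : ℝ) ^ 2 ≤ (L ^ A) ^ 2 := pow_le_pow_left₀ (Nat.cast_nonneg _) hlL 2
        _ = Real.exp (2 * A * Real.log L) := by
            rw [← pow_mul, show 2 * (A : ℝ) * Real.log L = ((A * 2 : ℕ) : ℝ) * Real.log L by
              push_cast; ring, Real.exp_nat_mul, Real.exp_log hL0]
        _ ≤ Real.exp (a / 2) := Real.exp_le_exp.2 (by linarith)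
        _ ≤ Real.exp (Real.log z) := Real.exp_le_exp.2 hlz1
        _ = z := Real.exp_log (by exact_mod_cast (by omega : 0 < z))
    exact_mod_cast h1
  set k : ℕ := ⌊a / 2⌋₊ with hk
  have hk1 : (k : ℝ) ≤ a / 2 := Nat.floor_le (by positivity)
  have hk2 : a / 2 < k + 1 := Nat.lt_floor_add_one _
  set T := Real.log (Real.log y / Real.log z) with hT
  have hly0 : 0 < Real.log y := by linarith
  have hTL : T ≤ Real.log L := by
    apply Real.log_le_log (by positivity)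
    calc Real.log y / Real.log z ≤ Real.log y / 1 :=
          div_le_div_of_nonneg_left hly0.le one_pos hlz01
      _ ≤ L := by rw [div_one]; linarith
  have hkk : 2 * Real.exp (2 * T + 2 * C0 + 1) ≤ 2 ^ k := by
    have h1 : (2 : ℝ) ≤ Real.exp 1 := by have := Real.add_one_le_exp (1 : ℝ); linarith
    have h2 : (2 : ℝ) ^ k = Real.exp (k * Real.log 2) := by
      rw [Real.exp_nat_mul, Real.exp_log (by norm_num)]
    have hlog2 : (1 / 2 : ℝ) ≤ Real.log 2 := by have := Real.log_two_gt_d9; linarith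
    rw [h2]
    calc 2 * Real.exp (2 * T + 2 * C0 + 1) ≤ Real.exp 1 * Real.exp (2 * T + 2 * C0 + 1) :=
          mul_le_mul_of_nonneg_right h1 (Real.exp_pos _).le
      _ = Real.exp (2 * T + 2 * C0 + 2) := by rw [← Real.exp_add]; congr 1; ring
      _ ≤ Real.exp (k * Real.log 2) := by
          apply Real.exp_le_exp.2
          have h3 : (k : ℝ) * (1 / 2) ≤ k * Real.log 2 :=
            mul_le_mul_of_nonneg_left hlog2 (Nat.cast_nonneg _)
          linarith
  have hQX : (y ^ k) ^ 2 ≤ X := by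
    refine le_trans ?_ hX
    have h1 : ((y : ℝ) ^ k) ^ 2 ≤ w := by
      calc ((y : ℝ) ^ k) ^ 2 = (y : ℝ) ^ (2 * k) := by rw [← pow_mul, mul_comm]
        _ ≤ (Real.exp (L ^ (1 - δ))) ^ (2 * k) := pow_le_pow_left₀ (Nat.cast_nonneg _) hyr _
        _ = Real.exp ((2 * k : ℕ) * L ^ (1 - δ)) := by rw [← Real.exp_nat_mul]
        _ ≤ Real.exp L := by
            apply Real.exp_le_exp.2
            rw [hb]
            push_cast
            calc 2 * (k : ℝ) * (L / a) ≤ a * (L / a) := by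
                  apply mul_le_mul_of_nonneg_right (by linarith) (by positivity)
              _ = L := by field_simp
        _ = w := hexpL
    exact_mod_cast h1
  have hmain := core z y l k (y ^ k) X hl hz3 hzy hS hMM hlz hkk le_rfl hQX
  refine hmain.trans ?_
  have h1 : Real.log z / Real.log y ≤ a / (L ^ (1 - δ) / 2) :=
    div_le_div₀ ha0.le hlz2 (by positivity) hly1
  have h2 : (Real.log z / Real.log y) ^ 2 ≤ 4 * L ^ (4 * δ - 2) := by
    calc (Real.log z / Real.log y) ^ 2 ≤ (a / (L ^ (1 - δ) / 2)) ^ 2 :=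
          pow_le_pow_left₀ (by positivity) h1 2
      _ = 4 * (a / L ^ (1 - δ)) ^ 2 := by field_simp; ring
      _ = 4 * L ^ (4 * δ - 2) := by
          congr 1
          rw [ha, ← Real.rpow_sub hL0, ← Real.rpow_natCast, ← Real.rpow_mul hL0.le]
          congr 1
          push_cast
          ring
  calc 24 * Real.exp (2 * C0 + 2) * X * (Real.log z / Real.log y) ^ 2
      ≤ 24 * Real.exp (2 * C0 + 2) * X * (4 * L ^ (4 * δ - 2)) :=
        mul_le_mul_of_nonneg_left h2 (by positivity)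
    _ = X * (96 * Real.exp (2 * C0 + 2) * L ^ (4 * δ - 2)) := by ring
    _ ≤ X * (L ^ δ * L ^ (4 * δ - 2)) := by
        apply mul_le_mul_of_nonneg_left _ (Nat.cast_nonneg _)
        exact mul_le_mul_of_nonneg_right f8 (Real.rpow_nonneg hL0.le _)
    _ = X * L ^ (5 * δ - 2) := by
        rw [← Real.rpow_add hL0]
        congr 2
        ring

end Pool.Agent.N672.Opn
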