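import Mathlib
import Pool.Agent.N672.Opn.SiftA

set_option autoImplicit false

/-!
# The prime factors `p` of a perfect number such that `l ∣ v_p + 1`, uniformly in `l`
-/

namespace Pool.Agent.N672.Opn
open Finset Filter
open Pool.Agent.Y959.Sv (Pz mem_Pz)

lemma geom_dvd (x l c : ℕ) : (∑ i ∈ range l, x ^ i) ∣ ∑ i ∈ range (l * c), x ^ i := by
  induction c with
  | zero => simp
  | succ c ih =>
    rw [Nat.mul_succ, Finset.sum_range_add]
    refine dvd_add ih ?_
    have : ∑ i ∈ range l, x ^ (l * c + i) = (∑ i ∈ range l, x ^ i) * x ^ (l * c) := by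
      rw [sum_mul]
      exact sum_congr rfl (fun i _ => by rw [pow_add, mul_comm])
    rw [this]
    exact dvd_mul_right _ _

/-- an odd prime `r` divides at most `v_r` of the numbers `σ(p ^ v_p)` -/
lemma card_dvd_le {N : ℕ} (hN : N ≠ 0) (hsum : ∑ d ∈ N.divisors, d = 2 * N) {r : ℕ}
    (hr : r.Prime) (hr2 : r ≠ 2) :
    (N.primeFactors.filter (fun p => r ∣ ∑ i ∈ range (N.factorization p + 1), p ^ i)).card ≤
      N.factorization r := by
  classical
  set S : ℕ → ℕ := fun p => ∑ i ∈ range (N.factorization p + 1), p ^ i with hS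
  have hS0 : ∀ p, S p ≠ 0 := by
    intro p
    simp only [hS]
    rw [sum_range_succ']
    simp
  have h1 : (∏ p ∈ N.primeFactors, S p).factorization r = N.factorization r := by
    rw [← Nat.sum_divisors hN, hsum, Nat.factorization_mul (by norm_num) hN]
    simp [Nat.prime_two.factorization, Finsupp.single_apply, hr2.symm]
  rw [← h1, Nat.factorization_prod (fun p _ => hS0 p), Finsupp.coe_finset_sum, Finset.sum_apply,
    card_filter]
  apply sum_le_sum
  intro p _
  split_ifs with h
  · exact (hr.dvd_iff_one_le_factorization (hS0 p)).1 h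
  · exact Nat.zero_le _

/-- **The count.** -/
theorem count_le {N : ℕ} (hN : N ≠ 0) (hsum : ∑ d ∈ N.divisors, d = 2 * N) (l : ℕ)
    (z y X : ℕ) (hz : 2 ≤ z) :
    ((N.primeFactors.filter (fun p => p ≤ X ∧ l ∣ N.factorization p + 1)).card : ℝ) ≤
      ((N.primeFactors.filter (fun p => p ≤ y)).card : ℝ) +
      ∑ r ∈ N.primeFactors.filter (fun r => r ≤ y), (N.factorization r : ℝ) +
      (((Icc 1 X).filter (fun n => ∀ r ∈ Pz z y, n % r ∉ Cl l r)).card : ℝ) := by
  classical
  set A1 := N.primeFactors.filter (fun p => p ≤ y) with hA1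
  set A3 := (Icc 1 X).filter (fun n => ∀ r ∈ Pz z y, n % r ∉ Cl l r) with hA3
  set R := (N.primeFactors.filter (fun r => r ≤ y)).filter (fun r => r ≠ 2) with hR
  set A2 := R.biUnion (fun r =>
    N.primeFactors.filter (fun p => r ∣ ∑ i ∈ range (N.factorization p + 1), p ^ i)) with hA2
  have hsub : N.primeFactors.filter (fun p => p ≤ X ∧ l ∣ N.factorization p + 1) ⊆
      A1 ∪ A2 ∪ A3 := by
    intro p hp
    obtain ⟨hp1, hp2, hp3⟩ := mem_filter.1 hp
    have hpp := Nat.prime_of_mem_primeFactors hp1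
    by_contra hcon
    rw [mem_union, mem_union, not_or, not_or] at hcon
    obtain ⟨⟨h1, h2⟩, h3⟩ := hcon
    have hpy : y < p := by
      by_contra h
      exact h1 (mem_filter.2 ⟨hp1, not_lt.1 h⟩)
    apply h3
    rw [hA3, mem_filter, mem_Icc]
    refine ⟨⟨hpp.one_lt.le, hp2⟩, fun r hr => ?_⟩
    obtain ⟨⟨hzr, hry⟩, hrp⟩ := mem_Pz.1 hr
    apply mod_notMem
    · intro h
      have := (Nat.prime_dvd_prime_iff_eq hrp hpp).1 h
      omega
    · intro _ h
      apply h2
      have h4 : r ∣ ∑ i ∈ range (N.factorization p + 1), p ^ i := by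
        obtain ⟨c, hc⟩ := hp3
        rw [hc]
        exact h.trans (geom_dvd p l c)
      have h5 : r ∣ 2 * N := by
        rw [← hsum, Nat.sum_divisors hN]
        exact h4.trans (Finset.dvd_prod_of_mem
          (fun p => ∑ i ∈ range (N.factorization p + 1), p ^ i) hp1)
      have h6 : r ∣ N := by
        rcases (Nat.Prime.dvd_mul hrp).1 h5 with h7 | h7
        · have := (Nat.prime_dvd_prime_iff_eq hrp Nat.prime_two).1 h7
          omega
        · exact h7
      rw [hA2, mem_biUnion]
      refine ⟨r, mem_filter.2 ⟨mem_filter.2 ⟨Nat.mem_primeFactors.2 ⟨hrp, h6, hN⟩, hry⟩, by omega⟩,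
        mem_filter.2 ⟨hp1, h4⟩⟩
  have hA2c : A2.card ≤ ∑ r ∈ N.primeFactors.filter (fun r => r ≤ y), N.factorization r := by
    calc A2.card ≤ ∑ r ∈ R, (N.primeFactors.filter
          (fun p => r ∣ ∑ i ∈ range (N.factorization p + 1), p ^ i)).card := card_biUnion_le
      _ ≤ ∑ r ∈ R, N.factorization r := by
          apply sum_le_sum
          intro r hr
          obtain ⟨h1, h2⟩ := mem_filter.1 hr
          exact card_dvd_le hN hsum (Nat.prime_of_mem_primeFactors (mem_filter.1 h1).1) h2
      _ ≤ _ := sum_le_sum_of_subset (filter_subset _ _)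
  have h1 := (card_le_card hsub).trans ((card_union_le _ _).trans
    (Nat.add_le_add_right (card_union_le _ _) _))
  have h2 : (N.primeFactors.filter (fun p => p ≤ X ∧ l ∣ N.factorization p + 1)).card ≤
      A1.card + ∑ r ∈ N.primeFactors.filter (fun r => r ≤ y), N.factorization r + A3.card := by
    omega
  exact_mod_cast h2

/-- **The count for an integer with a large least prime factor.** -/
theorem count_min (ε : ℝ) (hε : 0 < ε) (A : ℕ) : ∃ P₀ : ℕ, 3 ≤ P₀ ∧ ∀ N : ℕ, N ≠ 0 →
    ∑ d ∈ N.divisors, d = 2 * N → P₀ ≤ N.minFac → ∀ l : ℕ, l.Prime →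
    (l : ℝ) ≤ Real.log N.minFac ^ A → ∀ X : ℕ, N.minFac ≤ X →
    ((N.primeFactors.filter (fun p => p ≤ X ∧ l ∣ N.factorization p + 1)).card : ℝ) ≤
      X * Real.log N.minFac ^ (ε - 2) := by
  classical
  set δ : ℝ := min (ε / 5) (1 / 4) with hδdef
  have hδ : 0 < δ := lt_min (by positivity) (by norm_num)
  obtain ⟨w₀, hw3, h⟩ := sift δ hδ (min_le_right _ _) A
  refine ⟨w₀, hw3, fun N hN hsum hP l hl hlP X hX => ?_⟩
  obtain ⟨h1, h2, h3, h4⟩ := h N.minFac hP
  set P := N.minFac with hPdef
  set y := Yf δ P with hy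
  have hPy : y < P := by
    by_contra hcon
    push Not at hcon
    have h5 : P < P ^ 4 := lt_self_pow₀ (by omega) (by norm_num)
    have h6 : P ^ 4 ≤ y ^ 4 := Nat.pow_le_pow_left hcon 4
    omega
  have hempty : N.primeFactors.filter (fun p => p ≤ y) = ∅ := by
    rw [filter_eq_empty_iff]
    intro p hp
    have : N.minFac ≤ p := Nat.minFac_le_of_dvd (Nat.prime_of_mem_primeFactors hp).two_le
      (Nat.dvd_of_mem_primeFactors hp)
    omega
  -- the lower limit may be taken to be at least two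
  have h5 := h4 l hl hlP X hX
  have hz : 2 ≤ Zf δ P := by
    unfold Zf
    rw [Nat.le_floor_iff (Real.exp_pos _).le]
    have h6 : (1 : ℝ) ≤ Real.log P ^ δ := Real.one_le_rpow h1 hδ.le
    have := Real.add_one_le_exp (Real.log P ^ δ)
    push_cast
    linarith
  have h6 := count_le hN hsum l (Zf δ P) y X hz
  rw [hempty, card_empty, sum_empty, Nat.cast_zero, zero_add, zero_add] at h6
  refine h6.trans (h5.trans ?_)
  apply mul_le_mul_of_nonneg_left _ (Nat.cast_nonneg _)
  apply Real.rpow_le_rpow_of_exponent_le h1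
  have : δ ≤ ε / 5 := min_le_left _ _
  linarith

end Pool.Agent.N672.Opn
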