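import Mathlib
import Pool.Agent.N672.Opn.Count

set_option autoImplicit false

/-!
# The sieve in the progression `1` modulo `m`, with the primes dividing `N` left out
-/

namespace Pool.Agent.N672.Opn
open Finset Filter
open Pool.Agent.Y959.Sv (Pz mem_Pz)

/-- the excluded classes for `b`, where `n = 1 + m b` -/
def Jm (m l r : ℕ) : Finset ℕ := (range r).filter (fun b => (1 + m * b) % r ∈ Cl l r)

lemma Jm_sub (m l r : ℕ) : Jm m l r ⊆ range r := filter_subset _ _

lemma Jm_card {m l r : ℕ} (hr : r.Prime) (hm : ¬ r ∣ m) : (Jm m l r).card = (Cl l r).card := by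
  classical
  have hinj : Set.InjOn (fun b => (1 + m * b) % r) (range r : Set ℕ) := by
    intro b hb c hc h
    simp only [coe_range, Set.mem_Iio] at hb hc
    have h1 : 1 + m * b ≡ 1 + m * c [MOD r] := h
    have h2 : m * b ≡ m * c [MOD r] := Nat.ModEq.add_left_cancel' 1 h1
    have h3 : b ≡ c [MOD r] := Nat.ModEq.cancel_left_of_coprime (by
      rw [Nat.gcd_comm]
      exact (Nat.Prime.coprime_iff_not_dvd hr).2 hm |>.symm) h2
    unfold Nat.ModEq at h3
    rwa [Nat.mod_eq_of_lt hb, Nat.mod_eq_of_lt hc] at h3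
  have himg : (range r).image (fun b => (1 + m * b) % r) = range r := by
    apply eq_of_subset_of_card_le
    · intro x hx
      obtain ⟨b, _, rfl⟩ := mem_image.1 hx
      exact mem_range.2 (Nat.mod_lt _ hr.pos)
    · rw [card_image_of_injOn hinj]
  have h1 : (Jm m l r).image (fun b => (1 + m * b) % r) = Cl l r := by
    ext x
    rw [mem_image]
    constructor
    · rintro ⟨b, hb, rfl⟩
      exact (mem_filter.1 hb).2
    · intro hx
      have h2 : x ∈ (range r).image (fun b => (1 + m * b) % r) := by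
        rw [himg]; exact Cl_sub l r hx
      obtain ⟨b, hb, hbx⟩ := mem_image.1 h2
      refine ⟨b, mem_filter.2 ⟨hb, ?_⟩, hbx⟩
      rw [hbx]; exact hx
  rw [← h1, card_image_of_injOn (hinj.mono (by
    intro b hb
    exact mem_coe.2 (Jm_sub m l r (mem_coe.1 hb))))]

lemma mod_notMem_Jm {m l r b : ℕ} (h : (1 + m * b) % r ∉ Cl l r) : b % r ∉ Jm m l r := by
  intro h1
  apply h
  have h2 := (mem_filter.1 h1).2
  have h3 : (1 + m * (b % r)) % r = (1 + m * b) % r := by
    have : 1 + m * (b % r) ≡ 1 + m * b [MOD r] :=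
      (Nat.ModEq.refl 1).add ((Nat.ModEq.refl m).mul (Nat.mod_modEq b r))
    exact this
  rwa [h3] at h2

/-- the sieve bound in terms of the parameters -/
theorem coreM {C0 : ℝ} (N m z y l k Q X : ℕ) (hl : l.Prime) (hz : 3 ≤ z)
    (hzy : z ≤ y) (hm : 1 ≤ m) (hmz : m ≤ z)
    (hS : |∑ r ∈ (Pz z y).filter (fun r => r ≡ 1 [MOD l]), ((l : ℝ) - 1) / r -
      ∑ r ∈ Pz z y, 1 / (r : ℝ)| ≤ 1)
    (hM : |∑ r ∈ Pz z y, 1 / (r : ℝ) - Real.log (Real.log y / Real.log z)| ≤ C0)
    (hN1 : ∑ r ∈ (Pz z y).filter (fun r => r ∣ N), 1 / (r : ℝ) ≤ 1)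
    (hN2 : ∑ r ∈ (Pz z y).filter (fun r => r ∣ N ∧ r ≡ 1 [MOD l]), ((l : ℝ) - 1) / r ≤ 1)
    (hlz : l ^ 2 ≤ z)
    (hk : 2 * Real.exp (2 * Real.log (Real.log y / Real.log z) + 2 * C0 + 1) ≤ 2 ^ k)
    (hQ : y ^ k ≤ Q) (hX : Q ^ 2 ≤ X) :
    (((Icc 1 X).filter (fun b => ∀ r ∈ (Pz z y).filter (fun r => ¬ r ∣ N),
      b % r ∉ Jm m l r)).card : ℝ) ≤
      24 * Real.exp (2 * C0 + 4) * X * (Real.log z / Real.log y) ^ 2 := by
  classical
  set PN := (Pz z y).filter (fun r => ¬ r ∣ N) with hPN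
  set g : ℕ → ℝ := fun r => ((Cl l r).card : ℝ) / r with hg
  have hl2 : (2 : ℝ) ≤ l := by exact_mod_cast hl.two_le
  have hgr : ∀ r ∈ Pz z y, g r = 1 / (r : ℝ) + (if r ≡ 1 [MOD l] then ((l : ℝ) - 1) / r else 0) := by
    intro r hr
    obtain ⟨_, hrp⟩ := mem_Pz.1 hr
    simp only [hg]
    split_ifs with h
    · rw [Cl_card_one hl hrp h, ← add_div]; congr 1; ring
    · rw [Cl_card_ne hrp.pos h, add_zero, Nat.cast_one]
  have hsum : ∑ r ∈ Pz z y, g r = ∑ r ∈ Pz z y, 1 / (r : ℝ) +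
      ∑ r ∈ (Pz z y).filter (fun r => r ≡ 1 [MOD l]), ((l : ℝ) - 1) / r := by
    rw [sum_congr rfl hgr, sum_add_distrib, sum_filter]
  have hsumN : ∑ r ∈ (Pz z y).filter (fun r => r ∣ N), g r ≤ 2 := by
    have h1 : ∑ r ∈ (Pz z y).filter (fun r => r ∣ N), g r =
        ∑ r ∈ (Pz z y).filter (fun r => r ∣ N), 1 / (r : ℝ) +
        ∑ r ∈ (Pz z y).filter (fun r => r ∣ N ∧ r ≡ 1 [MOD l]), ((l : ℝ) - 1) / r := by
      rw [sum_congr rfl (fun r hr => hgr r (mem_filter.1 hr).1), sum_add_distrib, ← sum_filter,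
        filter_filter]
    rw [h1]
    linarith
  have hg0 : ∀ r, 0 ≤ g r := fun r => by simp only [hg]; positivity
  have hgl : ∀ r ∈ Pz z y, g r ≤ l / r := by
    intro r hr
    obtain ⟨_, hrp⟩ := mem_Pz.1 hr
    have hr0 : (0 : ℝ) < r := by exact_mod_cast hrp.pos
    rw [hgr r hr]
    split_ifs with h
    · rw [← add_div]
      apply div_le_div_of_nonneg_right _ hr0.le
      linarith
    · rw [add_zero]
      apply div_le_div_of_nonneg_right _ hr0.le
      linarith
  set T := Real.log (Real.log y / Real.log z) with hT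
  have hM' := abs_le.1 hM
  have hS' := abs_le.1 hS
  -- upper bound for the product
  have hup : ∏ r ∈ PN, (1 + g r) ≤ Real.exp (2 * T + 2 * C0 + 1) := by
    calc ∏ r ∈ PN, (1 + g r) ≤ ∏ r ∈ PN, Real.exp (g r) := by
          apply Finset.prod_le_prod
          · intro r _; have := hg0 r; linarith
          · intro r _
            have := Real.add_one_le_exp (g r)
            linarith
      _ = Real.exp (∑ r ∈ PN, g r) := by rw [Real.exp_sum]
      _ ≤ _ := by
          apply Real.exp_le_exp.2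
          have h1 : ∑ r ∈ PN, g r ≤ ∑ r ∈ Pz z y, g r :=
            sum_le_sum_of_subset_of_nonneg (filter_subset _ _) (fun r _ _ => hg0 r)
          rw [hsum] at h1
          linarith [hM'.2, hS'.2]
  -- lower bound for the product
  have hlow : Real.exp (2 * T - 2 * C0 - 4) ≤ ∏ r ∈ PN, (1 + g r) := by
    calc Real.exp (2 * T - 2 * C0 - 4) ≤ Real.exp (∑ r ∈ PN, (g r - g r ^ 2)) := by
          apply Real.exp_le_exp.2
          rw [sum_sub_distrib]
          have h1 : ∑ r ∈ PN, g r ^ 2 ≤ 1 := by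
            calc ∑ r ∈ PN, g r ^ 2 ≤ ∑ r ∈ Pz z y, g r ^ 2 :=
                  sum_le_sum_of_subset_of_nonneg (filter_subset _ _) (fun r _ _ => by positivity)
              _ ≤ ∑ r ∈ Pz z y, (l : ℝ) ^ 2 * (1 / (r : ℝ) ^ 2) := by
                  apply sum_le_sum
                  intro r hr
                  have h2 := hgl r hr
                  calc g r ^ 2 ≤ (l / r) ^ 2 := pow_le_pow_left₀ (hg0 r) h2 2
                    _ = (l : ℝ) ^ 2 * (1 / (r : ℝ) ^ 2) := by rw [div_pow]; ring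
              _ = (l : ℝ) ^ 2 * ∑ r ∈ Pz z y, 1 / (r : ℝ) ^ 2 := by rw [mul_sum]
              _ ≤ (l : ℝ) ^ 2 * (1 / z) :=
                  mul_le_mul_of_nonneg_left (sum_sq_le z y (by omega) hzy) (by positivity)
              _ ≤ 1 := by
                  have hz0 : (0 : ℝ) < z := by exact_mod_cast (by omega : 0 < z)
                  rw [mul_one_div, div_le_one hz0]
                  exact_mod_cast hlz
          have h3 := Finset.sum_filter_add_sum_filter_not (Pz z y) (fun r => r ∣ N) g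
          rw [hsum] at h3
          linarith [hM'.1, hS'.1]
      _ = ∏ r ∈ PN, Real.exp (g r - g r ^ 2) := by rw [Real.exp_sum]
      _ ≤ _ := by
          apply Finset.prod_le_prod (fun r _ => (Real.exp_pos _).le)
          intro r _
          have h1 := hg0 r
          have h2 : g r - g r ^ 2 ≤ Real.log (1 + g r) := by
            have h3 := Real.one_sub_inv_le_log_of_pos (x := 1 + g r) (by linarith)
            have h4 : g r - g r ^ 2 ≤ 1 - (1 + g r)⁻¹ := by
              have h5 : 1 - (1 + g r)⁻¹ = g r / (1 + g r) := by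
                have : 1 + g r ≠ 0 := by linarith
                field_simp
                ring
              rw [h5, le_div_iff₀ (by linarith)]
              nlinarith [pow_nonneg h1 3]
            linarith
          calc Real.exp (g r - g r ^ 2) ≤ Real.exp (Real.log (1 + g r)) := Real.exp_le_exp.2 h2
            _ = 1 + g r := Real.exp_log (by linarith)
  have hprodJ : ∏ r ∈ PN, (1 + ((Jm m l r).card : ℝ) / r) = ∏ r ∈ PN, (1 + g r) := by
    apply prod_congr rfl
    intro r hr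
    obtain ⟨hr1, _⟩ := mem_filter.1 hr
    obtain ⟨⟨hr2, _⟩, hrp⟩ := mem_Pz.1 hr1
    rw [Jm_card hrp]
    intro h
    have := Nat.le_of_dvd (by omega) h
    omega
  have hsv := sieve_le X Q k y PN (Jm m l) (fun q hq => (mem_Pz.1 (mem_filter.1 hq).1).2)
    (fun q hq => (mem_Pz.1 (mem_filter.1 hq).1).1.2) (fun q _ => Jm_sub m l q) hQ (by omega) (by
      refine le_trans ?_ hk
      apply mul_le_mul_of_nonneg_left _ (by norm_num)
      rw [hprodJ]
      exact hup)
  rw [hprodJ] at hsv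
  set U := (((Icc 1 X).filter (fun n => ∀ r ∈ PN, n % r ∉ Jm m l r)).card : ℝ) with hU
  have hU0 : 0 ≤ U := Nat.cast_nonneg _
  have h1 : U * Real.exp (2 * T - 2 * C0 - 4) ≤ 24 * X := by
    have h2 : (Q : ℝ) ^ 2 ≤ X := by exact_mod_cast hX
    calc U * Real.exp (2 * T - 2 * C0 - 4) ≤ U * ∏ r ∈ PN, (1 + g r) :=
          mul_le_mul_of_nonneg_left hlow hU0
      _ ≤ 12 * ((X : ℝ) + (Q : ℝ) ^ 2) := hsv
      _ ≤ 24 * X := by linarith
  have hlz0 : 0 < Real.log z := Real.log_pos (by exact_mod_cast (by omega : 1 < z))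
  have hly0 : 0 < Real.log y := Real.log_pos (by exact_mod_cast (by omega : 1 < y))
  have h2 : Real.exp (2 * T - 2 * C0 - 4) =
      (Real.log y / Real.log z) ^ 2 / Real.exp (2 * C0 + 4) := by
    rw [show 2 * T - 2 * C0 - 4 = 2 * T - (2 * C0 + 4) by ring, Real.exp_sub]
    congr 1
    rw [show 2 * T = T + T by ring, Real.exp_add, hT, Real.exp_log (by positivity)]
    ring
  rw [h2] at h1
  have h4 : 0 < Real.exp (2 * C0 + 4) := Real.exp_pos _
  calc U = U * ((Real.log y / Real.log z) ^ 2 / Real.exp (2 * C0 + 4)) *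
        ((Real.log z / Real.log y) ^ 2 * Real.exp (2 * C0 + 4)) := by
        field_simp
    _ ≤ 24 * X * ((Real.log z / Real.log y) ^ 2 * Real.exp (2 * C0 + 4)) :=
        mul_le_mul_of_nonneg_right h1 (by positivity)
    _ = _ := by ring

/-- **The sieve bound in the progression `1` modulo `m`.** -/
theorem siftM (δ : ℝ) (hδ : 0 < δ) (hδ4 : δ ≤ 1 / 4) (A : ℕ) : ∃ w₀ : ℕ, 3 ≤ w₀ ∧
    ∀ w : ℕ, w₀ ≤ w → 1 ≤ Real.log w ∧ (Yf δ w) ^ 4 ≤ w ∧ 3 ≤ Zf δ w ∧ Zf δ w ≤ Yf δ w ∧
    ∀ N l m : ℕ, l.Prime → (l : ℝ) ≤ Real.log w ^ A → 1 ≤ m → (m : ℝ) ≤ Real.log w ^ A →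
    (∑ r ∈ (Pz (Zf δ w) (Yf δ w)).filter (fun r => r ∣ N), 1 / (r : ℝ) ≤ 1) →
    (∑ r ∈ (Pz (Zf δ w) (Yf δ w)).filter (fun r => r ∣ N ∧ r ≡ 1 [MOD l]),
      ((l : ℝ) - 1) / r ≤ 1) →
    ∀ X : ℕ, w ≤ X →
      (((Icc 1 (X / m)).filter (fun b => ∀ r ∈ (Pz (Zf δ w) (Yf δ w)).filter (fun r => ¬ r ∣ N),
        b % r ∉ Jm m l r)).card : ℝ) ≤ X / m * Real.log w ^ (5 * δ - 2) := by
  classical
  obtain ⟨C0, hC0, hmert⟩ := Pool.Agent.Helper923.HMertens.mertens_ratio
  set K : ℕ := ⌈((A : ℝ) + 1) / δ⌉₊ with hK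
  set M : ℕ := ⌈2 / δ⌉₊ with hM
  have hKδ : (A : ℝ) + 1 ≤ δ * K := by
    have := Nat.le_ceil (((A : ℝ) + 1) / δ)
    rw [div_le_iff₀ hδ] at this
    linarith
  have hMδ : 2 ≤ δ * M := by
    have := Nat.le_ceil (2 / δ)
    rw [div_le_iff₀ hδ] at this
    linarith
  obtain ⟨z0, hz03, hap⟩ := sum_ap (K + M) K
  have htend : Tendsto (fun w : ℕ => Real.log (w : ℝ)) atTop atTop :=
    Real.tendsto_log_atTop.comp tendsto_natCast_atTop_atTop
  have hev : ∀ᶠ L : ℝ in atTop, 8 ≤ L ^ δ ∧ (z0 : ℝ) + 1 ≤ L ^ δ ∧ 2 ^ K ≤ L ∧ 5 * 2 ^ M ≤ L ∧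
      4 * A * Real.log L ≤ L ^ δ ∧ 32 * Real.log L ≤ L ^ δ ∧ 16 * (2 * C0 + 5 / 2) ≤ L ^ δ ∧
      96 * Real.exp (2 * C0 + 4) ≤ L ^ δ ∧ 1 ≤ L ∧ A * Real.log L ≤ L / 2 := by
    have h1 := tendsto_rpow_atTop hδ
    filter_upwards [h1.eventually_ge_atTop 8, h1.eventually_ge_atTop ((z0 : ℝ) + 1),
      eventually_ge_atTop ((2 : ℝ) ^ K), eventually_ge_atTop (5 * (2 : ℝ) ^ M),
      ev_log_le δ hδ (4 * A), ev_log_le δ hδ 32, h1.eventually_ge_atTop (16 * (2 * C0 + 5 / 2)),
      h1.eventually_ge_atTop (96 * Real.exp (2 * C0 + 4)), eventually_ge_atTop (1 : ℝ),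
      ev_log_le 1 one_pos (2 * A)]
      with L h1 h2 h3 h4 h5 h6 h7 h8 h9 h10
    rw [Real.rpow_one] at h10
    exact ⟨h1, h2, h3, h4, h5, h6, h7, h8, h9, by linarith⟩
  obtain ⟨w1, hw1⟩ := (eventually_atTop.1 (htend.eventually hev))
  refine ⟨max w1 3, le_max_right _ _, fun w hw => ?_⟩
  obtain ⟨f1, f2, f3, f4, f5, f6, f7, f8, f9, f10⟩ := hw1 w ((le_max_left _ _).trans hw)
  have hw3 : 3 ≤ w := (le_max_right _ _).trans hw
  have hw0 : (0 : ℝ) < w := by exact_mod_cast (by omega : 0 < w)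
  set L := Real.log (w : ℝ) with hL
  have hL0 : 0 < L := by linarith
  set a : ℝ := L ^ δ with ha
  have ha0 : 0 < a := by linarith
  have hexpL : Real.exp L = w := by rw [hL, Real.exp_log hw0]
  have hb : L ^ (1 - δ) = L / a := by rw [ha, Real.rpow_sub hL0, Real.rpow_one]
  have hb4 : L ^ (1 - δ) ≤ L / 4 := by
    rw [hb]
    exact div_le_div_of_nonneg_left hL0.le (by norm_num) (by linarith)
  have hab : a ≤ L ^ (1 - δ) := by
    rw [ha]
    exact Real.rpow_le_rpow_of_exponent_le f9 (by linarith)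
  have hb0 : 0 < L ^ (1 - δ) := Real.rpow_pos_of_pos hL0 _
  set z := Zf δ w with hz
  set y := Yf δ w with hy
  have hz' : z = ⌊Real.exp a⌋₊ := rfl
  have hy' : y = ⌊Real.exp (L ^ (1 - δ))⌋₊ := rfl
  have hlz1 : a / 2 ≤ Real.log z := by rw [hz']; exact half_le_log_floor (by linarith)
  have hlz2 : Real.log z ≤ a := by rw [hz']; exact log_floor_le ha0.le
  have hly1 : L ^ (1 - δ) / 2 ≤ Real.log y := by rw [hy']; exact half_le_log_floor (by linarith)
  have hly2 : Real.log y ≤ L ^ (1 - δ) := by rw [hy']; exact log_floor_le hb0.le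
  have hlz01 : 1 ≤ Real.log z := by linarith
  have hzz0 : z0 ≤ z := by
    have h1 : (z0 : ℝ) + 1 ≤ Real.exp a := by
      have := Real.add_one_le_exp a
      linarith
    have h2 : Real.exp a < z + 1 := by rw [hz']; exact Nat.lt_floor_add_one _
    have : (z0 : ℝ) < z := by linarith
    exact_mod_cast this.le
  have hz3 : 3 ≤ z := hz03.trans hzz0
  have hzy : z ≤ y := by
    rw [hz', hy']
    exact Nat.floor_le_floor (Real.exp_le_exp.2 hab)
  have hyr : (y : ℝ) ≤ Real.exp (L ^ (1 - δ)) := by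
    rw [hy']; exact Nat.floor_le (Real.exp_pos _).le
  have hy4 : y ^ 4 ≤ w := by
    have h1 : (y : ℝ) ^ 4 ≤ w := by
      calc (y : ℝ) ^ 4 ≤ (Real.exp (L ^ (1 - δ))) ^ 4 := pow_le_pow_left₀ (Nat.cast_nonneg _) hyr 4
        _ = Real.exp (4 * L ^ (1 - δ)) := by rw [← Real.exp_nat_mul]; norm_num
        _ ≤ Real.exp L := Real.exp_le_exp.2 (by linarith)
        _ = w := hexpL
    exact_mod_cast h1
  refine ⟨f9, hy4, hz3, hzy, fun N l m hl hlL hm1 hmL hN1 hN2 X hX => ?_⟩
  -- the size of `l`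
  have hlK : (l : ℝ) ≤ Real.log z ^ K := by
    refine hlL.trans ?_
    calc L ^ A ≤ (a / 2) ^ K := by
          rw [div_pow, le_div_iff₀ (by positivity)]
          calc L ^ A * 2 ^ K ≤ L ^ A * L := mul_le_mul_of_nonneg_left f3 (by positivity)
            _ = L ^ ((A : ℝ) + 1) := by
                rw [← Nat.cast_one, ← Nat.cast_add, Real.rpow_natCast, pow_succ]
            _ ≤ L ^ (δ * K) := Real.rpow_le_rpow_of_exponent_le f9 hKδ
            _ = a ^ K := by rw [ha, Real.rpow_mul hL0.le, Real.rpow_natCast]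
      _ ≤ Real.log z ^ K := pow_le_pow_left₀ (by positivity) hlz1 K
  have hS : |∑ r ∈ (Pz z y).filter (fun r => r ≡ 1 [MOD l]), ((l : ℝ) - 1) / r -
      ∑ r ∈ Pz z y, 1 / (r : ℝ)| ≤ 1 := by
    refine (hap z y l hzz0 hzy hl hlK).trans ?_
    have h1 : Real.log z ^ K / Real.log z ^ (K + M) = 1 / Real.log z ^ M := by
      have : Real.log z ≠ 0 := by linarith
      rw [pow_add]
      field_simp
    have h2 : 1 / Real.log z ^ M ≤ 2 ^ M / L ^ 2 := by
      have h3 : (a / 2) ^ M ≤ Real.log z ^ M := pow_le_pow_left₀ (by positivity) hlz1 M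
      have h4 : L ^ 2 ≤ a ^ M := by
        calc L ^ 2 = L ^ (2 : ℝ) := by rw [← Real.rpow_natCast]; norm_num
          _ ≤ L ^ (δ * M) := Real.rpow_le_rpow_of_exponent_le f9 hMδ
          _ = a ^ M := by rw [ha, Real.rpow_mul hL0.le, Real.rpow_natCast]
      calc 1 / Real.log z ^ M ≤ 1 / (a / 2) ^ M := one_div_le_one_div_of_le (by positivity) h3
        _ = 2 ^ M / a ^ M := by rw [div_pow, one_div_div]
        _ ≤ 2 ^ M / L ^ 2 := div_le_div_of_nonneg_left (by positivity) (by positivity) h4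
    have h3 : 3 + Real.log ((y : ℝ) + 1) ≤ 5 * L := by
      have h4 : Real.log ((y : ℝ) + 1) ≤ L + 1 := by
        have hy1 : (1 : ℝ) ≤ y := by exact_mod_cast (by omega : 1 ≤ y)
        have h5 : Real.log ((y : ℝ) + 1) ≤ Real.log (2 * y) :=
          Real.log_le_log (by linarith) (by linarith)
        rw [Real.log_mul (by norm_num) (by linarith)] at h5
        have h6 := Real.log_two_lt_d9
        have h7 : (4 : ℝ) * L ^ (1 - δ) ≤ L := by linarith
        linarith
      linarith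
    rw [h1]
    have h5 : 0 ≤ 3 + Real.log ((y : ℝ) + 1) := by
      have : 0 ≤ Real.log ((y : ℝ) + 1) := Real.log_nonneg (by linarith [Nat.cast_nonneg (α := ℝ) y])
      linarith
    calc 1 / Real.log z ^ M * (3 + Real.log ((y : ℝ) + 1)) ≤ 2 ^ M / L ^ 2 * (5 * L) :=
          mul_le_mul h2 h3 h5 (by positivity)
      _ = 5 * 2 ^ M / L := by field_simp
      _ ≤ 1 := by rw [div_le_one hL0]; exact f4
  have hMM : |∑ r ∈ Pz z y, 1 / (r : ℝ) - Real.log (Real.log y / Real.log z)| ≤ C0 := by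
    refine (hmert z y (by omega) hzy).trans ?_
    exact div_le_self hC0 hlz01
  have hsqz : ∀ t : ℕ, (t : ℝ) ≤ L ^ A → t ^ 2 ≤ z := by
    intro t ht
    have h1 : (t : ℝ) ^ 2 ≤ z := by
      calc (t : ℝ) ^ 2 ≤ (L ^ A) ^ 2 := pow_le_pow_left₀ (Nat.cast_nonneg _) ht 2
        _ = Real.exp (2 * A * Real.log L) := by
            rw [← pow_mul, show 2 * (A : ℝ) * Real.log L = ((A * 2 : ℕ) : ℝ) * Real.log L by
              push_cast; ring, Real.exp_nat_mul, Real.exp_log hL0]
        _ ≤ Real.exp (a / 2) := Real.exp_le_exp.2 (by linarith)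
        _ ≤ Real.exp (Real.log z) := Real.exp_le_exp.2 hlz1
        _ = z := Real.exp_log (by exact_mod_cast (by omega : 0 < z))
    exact_mod_cast h1
  have hmz : m ≤ z := (Nat.le_self_pow (by norm_num) m).trans (hsqz m hmL)
  set k : ℕ := ⌊a / 4⌋₊ with hk
  have hk1 : (k : ℝ) ≤ a / 4 := Nat.floor_le (by positivity)
  have hk2 : a / 4 < k + 1 := Nat.lt_floor_add_one _
  set T := Real.log (Real.log y / Real.log z) with hT
  have hly0 : 0 < Real.log y := by linarith
  have hTL : T ≤ Real.log L := by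
    apply Real.log_le_log (by positivity)
    calc Real.log y / Real.log z ≤ Real.log y / 1 :=
          div_le_div_of_nonneg_left hly0.le one_pos hlz01
      _ ≤ L := by rw [div_one]; linarith
  have hkk : 2 * Real.exp (2 * T + 2 * C0 + 1) ≤ 2 ^ k := by
    have h1 : (2 : ℝ) ≤ Real.exp 1 := by have := Real.add_one_le_exp (1 : ℝ); linarith
    have h2 : (2 : ℝ) ^ k = Real.exp (k * Real.log 2) := by
      rw [Real.exp_nat_mul, Real.exp_log (by norm_num)]
    have hlog2 : (1 / 2 : ℝ) ≤ Real.log 2 := by have := Real.log_two_gt_d9; linarith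
    rw [h2]
    calc 2 * Real.exp (2 * T + 2 * C0 + 1) ≤ Real.exp 1 * Real.exp (2 * T + 2 * C0 + 1) :=
          mul_le_mul_of_nonneg_right h1 (Real.exp_pos _).le
      _ = Real.exp (2 * T + 2 * C0 + 2) := by rw [← Real.exp_add]; congr 1; ring
      _ ≤ Real.exp (k * Real.log 2) := by
          apply Real.exp_le_exp.2
          have h3 : (k : ℝ) * (1 / 2) ≤ k * Real.log 2 :=
            mul_le_mul_of_nonneg_left hlog2 (Nat.cast_nonneg _)
          linarith
  have hm0 : (0 : ℝ) < m := by exact_mod_cast hm1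
  have hQX : (y ^ k) ^ 2 ≤ X / m := by
    rw [Nat.le_div_iff_mul_le hm1]
    refine le_trans ?_ hX
    have h1 : ((y : ℝ) ^ k) ^ 2 * m ≤ w := by
      calc ((y : ℝ) ^ k) ^ 2 * m = (y : ℝ) ^ (2 * k) * m := by rw [← pow_mul, mul_comm k 2]
        _ ≤ (Real.exp (L ^ (1 - δ))) ^ (2 * k) * L ^ A := by
            apply mul_le_mul (pow_le_pow_left₀ (Nat.cast_nonneg _) hyr _) hmL hm0.le (by positivity)
        _ = Real.exp ((2 * k : ℕ) * L ^ (1 - δ) + A * Real.log L) := by
            rw [Real.exp_add, ← Real.exp_nat_mul, Real.exp_nat_mul (Real.log L), Real.exp_log hL0]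
        _ ≤ Real.exp L := by
            apply Real.exp_le_exp.2
            rw [hb]
            push_cast
            have h2 : 2 * (k : ℝ) * (L / a) ≤ L / 2 := by
              calc 2 * (k : ℝ) * (L / a) ≤ a / 2 * (L / a) := by
                    apply mul_le_mul_of_nonneg_right (by linarith) (by positivity)
                _ = L / 2 := by field_simp
            linarith
        _ = w := hexpL
    exact_mod_cast h1
  have hmain := coreM N m z y l k (y ^ k) (X / m) hl hz3 hzy hm1 hmz hS hMM hN1 hN2 (hsqz l hlL)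
    hkk le_rfl hQX
  refine hmain.trans ?_
  have h1 : Real.log z / Real.log y ≤ a / (L ^ (1 - δ) / 2) :=
    div_le_div₀ ha0.le hlz2 (by positivity) hly1
  have h2 : (Real.log z / Real.log y) ^ 2 ≤ 4 * L ^ (4 * δ - 2) := by
    calc (Real.log z / Real.log y) ^ 2 ≤ (a / (L ^ (1 - δ) / 2)) ^ 2 :=
          pow_le_pow_left₀ (by positivity) h1 2
      _ = 4 * (a / L ^ (1 - δ)) ^ 2 := by field_simp; ring
      _ = 4 * L ^ (4 * δ - 2) := by
          congr 1
          rw [ha, ← Real.rpow_sub hL0, ← Real.rpow_natCast, ← Real.rpow_mul hL0.le]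
          congr 1
          push_cast
          ring
  have hXm : ((X / m : ℕ) : ℝ) ≤ X / m := Nat.cast_div_le
  calc 24 * Real.exp (2 * C0 + 4) * ((X / m : ℕ) : ℝ) * (Real.log z / Real.log y) ^ 2
      ≤ 24 * Real.exp (2 * C0 + 4) * (X / m) * (4 * L ^ (4 * δ - 2)) := by
        apply mul_le_mul _ h2 (by positivity) (by positivity)
        exact mul_le_mul_of_nonneg_left hXm (by positivity)
    _ = X / m * (96 * Real.exp (2 * C0 + 4) * L ^ (4 * δ - 2)) := by ring
    _ ≤ X / m * (L ^ δ * L ^ (4 * δ - 2)) := by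
        apply mul_le_mul_of_nonneg_left _ (by positivity)
        exact mul_le_mul_of_nonneg_right f8 (Real.rpow_nonneg hL0.le _)
    _ = X / m * L ^ (5 * δ - 2) := by
        rw [← Real.rpow_add hL0]
        congr 2
        ring

end Pool.Agent.N672.Opn
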