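import Mathlib
import Pool.Agent.N672.Opn.Count
import Pool.Agent.Y959.Sv.Least

set_option autoImplicit false

/-!
# Sums of reciprocals
-/

namespace Pool.Agent.N672.Opn
open Finset Filter

lemma harm_le' (z y : ℕ) (hzy : z ≤ y) :
    ∑ n ∈ Ioc z y, 1 / ((n : ℝ) + 1) ≤ Real.log (((y : ℝ) + 1) / ((z : ℝ) + 1)) := by
  induction y, hzy using Nat.le_induction with
  | base =>
    have : (z : ℝ) + 1 ≠ 0 := by positivity
    rw [div_self this]; simp
  | succ y hzy ih =>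
    have h1 : Ioc z (y + 1) = insert (y + 1) (Ioc z y) := by
      ext n; simp only [mem_Ioc, mem_insert]; omega
    rw [h1, sum_insert (by simp)]
    push_cast
    have hy : (0 : ℝ) < (y : ℝ) + 1 := by positivity
    have hz : (0 : ℝ) < (z : ℝ) + 1 := by positivity
    have h2 : 1 / ((y : ℝ) + 1 + 1) ≤ Real.log (((y : ℝ) + 1 + 1) / ((y : ℝ) + 1)) := by
      have h3 := Real.one_sub_inv_le_log_of_pos (x := ((y : ℝ) + 1 + 1) / ((y : ℝ) + 1)) (by positivity)
      refine le_trans (le_of_eq ?_) h3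
      have : (y : ℝ) + 1 + 1 ≠ 0 := by positivity
      field_simp
      ring
    rw [Real.log_div (by positivity) (by positivity)] at h2 ih ⊢
    linarith

lemma parts_bound' (c : ℕ → ℝ) (z y : ℕ) (hz : 1 ≤ z) (hzy : z ≤ y) (B : ℝ) (hB : 0 ≤ B)
    (h : ∀ n : ℕ, z ≤ n → n ≤ y → |∑ m ∈ Icc 1 n, c m| ≤ B * n) :
    |∑ n ∈ Ioc z y, c n / n| ≤ B * (2 + Real.log (((y : ℝ) + 1) / ((z : ℝ) + 1))) := by
  rw [by_parts c z hz y hzy]
  have e1 : |(∑ n ∈ Icc 1 y, c n) / ((y : ℝ) + 1)| ≤ B := by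
    rw [abs_div, abs_of_pos (by positivity : (0 : ℝ) < y + 1), div_le_iff₀ (by positivity)]
    refine (h y hzy le_rfl).trans ?_
    nlinarith
  have e2 : |(∑ n ∈ Icc 1 z, c n) / ((z : ℝ) + 1)| ≤ B := by
    rw [abs_div, abs_of_pos (by positivity : (0 : ℝ) < z + 1), div_le_iff₀ (by positivity)]
    refine (h z le_rfl hzy).trans ?_
    nlinarith
  have e3 : |∑ n ∈ Ioc z y, (∑ m ∈ Icc 1 n, c m) * (1 / (n : ℝ) - 1 / ((n : ℝ) + 1))| ≤
      B * Real.log (((y : ℝ) + 1) / ((z : ℝ) + 1)) := by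
    calc |∑ n ∈ Ioc z y, (∑ m ∈ Icc 1 n, c m) * (1 / (n : ℝ) - 1 / ((n : ℝ) + 1))|
        ≤ ∑ n ∈ Ioc z y, |(∑ m ∈ Icc 1 n, c m) * (1 / (n : ℝ) - 1 / ((n : ℝ) + 1))| :=
          abs_sum_le_sum_abs _ _
      _ ≤ ∑ n ∈ Ioc z y, B * (1 / ((n : ℝ) + 1)) := by
          apply sum_le_sum
          intro n hn
          rw [mem_Ioc] at hn
          have hn0 : (0 : ℝ) < n := by exact_mod_cast (by omega : 0 < n)
          have h4 : (1 / (n : ℝ) - 1 / (n + 1)) = 1 / (n * (n + 1)) := by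
            field_simp
            ring
          rw [h4, abs_mul, abs_of_pos (by positivity : (0 : ℝ) < 1 / (n * (n + 1)))]
          calc |∑ m ∈ Icc 1 n, c m| * (1 / ((n : ℝ) * (n + 1)))
              ≤ B * n * (1 / ((n : ℝ) * (n + 1))) :=
                mul_le_mul_of_nonneg_right (h n (by omega) hn.2) (by positivity)
            _ = B * (1 / ((n : ℝ) + 1)) := by field_simp
      _ = B * ∑ n ∈ Ioc z y, (1 / ((n : ℝ) + 1)) := by rw [mul_sum]
      _ ≤ _ := mul_le_mul_of_nonneg_left (harm_le' z y hzy) hB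
  calc |(∑ n ∈ Icc 1 y, c n) / ((y : ℝ) + 1) - (∑ n ∈ Icc 1 z, c n) / ((z : ℝ) + 1) +
        ∑ n ∈ Ioc z y, (∑ m ∈ Icc 1 n, c m) * (1 / (n : ℝ) - 1 / ((n : ℝ) + 1))|
      ≤ |(∑ n ∈ Icc 1 y, c n) / ((y : ℝ) + 1)| + |(∑ n ∈ Icc 1 z, c n) / ((z : ℝ) + 1)| +
        |∑ n ∈ Ioc z y, (∑ m ∈ Icc 1 n, c m) * (1 / (n : ℝ) - 1 / ((n : ℝ) + 1))| :=
        (abs_add_le _ _).trans (add_le_add (abs_sub _ _) le_rfl)
    _ ≤ B + B + B * Real.log (((y : ℝ) + 1) / ((z : ℝ) + 1)) := by linarith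
    _ = _ := by ring

/-- a set with few elements up to `n` has a small sum of reciprocals -/
lemma mass_le (Q : Finset ℕ) (z y : ℕ) (hz : 1 ≤ z) (hzy : z ≤ y) (B : ℝ) (hB : 0 ≤ B)
    (h : ∀ n : ℕ, z ≤ n → n ≤ y → ((Q.filter (fun q => q ≤ n)).card : ℝ) ≤ B * n) :
    ∑ q ∈ Q.filter (fun q => z < q ∧ q ≤ y), 1 / (q : ℝ) ≤
      B * (2 + Real.log (((y : ℝ) + 1) / ((z : ℝ) + 1))) := by
  classical
  have h1 := parts_bound' (fun n => if n ∈ Q then 1 else 0) z y hz hzy B hB (by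
    intro n hzn hny
    have h2 : ∑ m ∈ Icc 1 n, (if m ∈ Q then (1 : ℝ) else 0) =
        (((Icc 1 n).filter (fun m => m ∈ Q)).card : ℝ) := by
      rw [card_filter]; push_cast; rfl
    rw [h2, abs_of_nonneg (Nat.cast_nonneg _)]
    refine le_trans ?_ (h n hzn hny)
    have h3 : (Icc 1 n).filter (fun m => m ∈ Q) ⊆ Q.filter (fun q => q ≤ n) := by
      intro m hm
      rw [mem_filter, mem_Icc] at hm
      exact mem_filter.2 ⟨hm.2, hm.1.2⟩
    exact_mod_cast card_le_card h3)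
  refine le_trans ?_ ((le_abs_self _).trans h1)
  apply le_of_eq
  have h2 : ∑ n ∈ Ioc z y, (if n ∈ Q then (1 : ℝ) else 0) / n =
      ∑ n ∈ (Ioc z y).filter (fun n => n ∈ Q), 1 / (n : ℝ) := by
    rw [sum_filter]
    apply sum_congr rfl
    intro n _
    split_ifs <;> simp
  rw [h2]
  apply sum_congr _ (fun _ _ => rfl)
  ext n
  simp only [mem_filter, mem_Ioc]
  tauto

/-- a set of primes `≥ P` with large sum of reciprocals has many elements beyond `P ^ 2 / D` -/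
lemma tail_mass (K : ℝ) (hK : 0 ≤ K) : ∃ D P0 : ℕ, 1 ≤ D ∧ 2 ≤ P0 ∧ ∀ P : ℕ, P0 ≤ P →
    P ≤ P ^ 2 / D ∧ ∀ Q : Finset ℕ, (∀ q ∈ Q, q.Prime ∧ P ≤ q) →
    Real.log 2 - K / Real.log P ≤ ∑ q ∈ Q, 1 / (q : ℝ) →
    1 / Real.log P ≤ ∑ q ∈ Q.filter (fun q => ¬ q ≤ P ^ 2 / D), 1 / (q : ℝ) := by
  classical
  obtain ⟨C, hC, hM⟩ := Pool.Agent.Helper923.HMertens.mertens_ratio
  set D : ℕ := ⌈Real.exp (2 * (C + K + 2))⌉₊ with hD
  have hDr : Real.exp (2 * (C + K + 2)) ≤ D := Nat.le_ceil _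
  have hD1r : (1 : ℝ) ≤ D := by
    have : (1 : ℝ) ≤ Real.exp (2 * (C + K + 2)) := Real.one_le_exp (by linarith)
    linarith
  have hD1 : 1 ≤ D := by exact_mod_cast hD1r
  have hlogD : 2 * (C + K + 2) ≤ Real.log D := by
    rw [Real.le_log_iff_exp_le (by linarith)]
    exact hDr
  refine ⟨D, D + 2, hD1, by omega, fun P hP => ?_⟩
  have hPD : D ≤ P := by omega
  have hP2 : 2 ≤ P := by omega
  have hPr : (2 : ℝ) ≤ P := by exact_mod_cast hP2
  have hPDr : (D : ℝ) ≤ P := by exact_mod_cast hPD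
  have hlP : 0 < Real.log P := Real.log_pos (by linarith)
  set Y : ℕ := P ^ 2 / D with hY
  have hYr1 : (Y : ℝ) ≤ (P : ℝ) ^ 2 / D := by
    have : ((P ^ 2 / D : ℕ) : ℝ) ≤ ((P ^ 2 : ℕ) : ℝ) / D := Nat.cast_div_le
    rw [hY]
    refine this.trans (le_of_eq ?_)
    push_cast
    rfl
  have hPY : P ≤ Y := by
    rw [hY, Nat.le_div_iff_mul_le (by omega), sq]
    exact Nat.mul_le_mul_left _ hPD
  have hPYr : (P : ℝ) ≤ Y := by exact_mod_cast hPY
  refine ⟨hPY, fun Q hQ hsum => ?_⟩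
  -- primes up to `Y`
  have h1 : ∑ q ∈ Q.filter (fun q => q ≤ Y), 1 / (q : ℝ) ≤
      Real.log 2 - (Real.log D / 2 - C - 1) / Real.log P := by
    have hsub : Q.filter (fun q => q ≤ Y) ⊆ {P} ∪ (Ioc P Y).filter Nat.Prime := by
      intro q hq
      obtain ⟨h2, h3⟩ := mem_filter.1 hq
      obtain ⟨h4, h5⟩ := hQ q h2
      rcases Nat.lt_or_ge P q with h6 | h6
      · exact mem_union_right _ (mem_filter.2 ⟨mem_Ioc.2 ⟨h6, h3⟩, h4⟩)
      · exact mem_union_left _ (mem_singleton.2 (by omega))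
    have h2 : ∑ q ∈ Q.filter (fun q => q ≤ Y), 1 / (q : ℝ) ≤
        1 / (P : ℝ) + ∑ q ∈ (Ioc P Y).filter Nat.Prime, 1 / (q : ℝ) := by
      calc ∑ q ∈ Q.filter (fun q => q ≤ Y), 1 / (q : ℝ)
          ≤ ∑ q ∈ {P} ∪ (Ioc P Y).filter Nat.Prime, 1 / (q : ℝ) :=
            sum_le_sum_of_subset_of_nonneg hsub (fun q _ _ => by positivity)
        _ ≤ _ := by
            have h3 := Finset.sum_union_inter (s₁ := {P}) (s₂ := (Ioc P Y).filter Nat.Prime)
              (f := fun q : ℕ => 1 / (q : ℝ))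
            rw [sum_singleton] at h3
            have : 0 ≤ ∑ q ∈ {P} ∩ (Ioc P Y).filter Nat.Prime, 1 / (q : ℝ) :=
              sum_nonneg (fun q _ => by positivity)
            linarith
    have h3 := (abs_le.1 (hM P Y hP2 hPY)).2
    have hlY : 0 < Real.log Y := Real.log_pos (by linarith)
    have h4 : Real.log Y ≤ 2 * Real.log P - Real.log D := by
      have h5 := Real.log_le_log (by linarith) hYr1
      rw [Real.log_div (by positivity) (by linarith), Real.log_pow] at h5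
      exact_mod_cast h5
    have h5 : Real.log (Real.log Y / Real.log P) ≤ Real.log 2 - Real.log D / (2 * Real.log P) := by
      have h6 : Real.log Y / Real.log P = 2 * (Real.log Y / (2 * Real.log P)) := by
        field_simp
      have h7 : 0 < Real.log Y / (2 * Real.log P) := by positivity
      rw [h6, Real.log_mul (by norm_num) h7.ne']
      have h8 := Real.log_le_sub_one_of_pos h7
      have h9 : Real.log Y / (2 * Real.log P) ≤ 1 - Real.log D / (2 * Real.log P) := by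
        rw [div_le_iff₀ (by positivity), sub_mul, one_mul, div_mul_cancel₀ _ (by positivity)]
        exact h4
      linarith
    have h6 : 1 / (P : ℝ) ≤ 1 / Real.log P := by
      apply one_div_le_one_div_of_le hlP
      have := Real.log_le_sub_one_of_pos (show (0 : ℝ) < P by linarith)
      linarith
    have h7 : (Real.log D / 2 - C - 1) / Real.log P =
        Real.log D / (2 * Real.log P) - C / Real.log P - 1 / Real.log P := by
      field_simp
    rw [h7]
    linarith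
  have h3 := Finset.sum_filter_add_sum_filter_not Q (fun q => q ≤ Y) (fun q : ℕ => 1 / (q : ℝ))
  have h4 : K / Real.log P + 1 / Real.log P ≤ (Real.log D / 2 - C - 1) / Real.log P := by
    rw [← add_div]
    apply div_le_div_of_nonneg_right _ hlP.le
    linarith
  linarith

end Pool.Agent.N672.Opn
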