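import Mathlib
import Pool.Agent.N672.Opn.Mass
import Pool.Agent.Y959.Sv.Main

set_option autoImplicit false

/-!
# The size of an odd perfect number with a large least prime factor
-/

namespace Pool.Agent.N672.Opn
open Finset Filter
open Pool.Agent.Y959.Opn (Dat sg dat_of_perfect)
open Pool.Agent.Y959.Sv (log_two_le)

/-- **Main proposition.** If every prime factor `p` of `N` has an exponent `v_p ≥ H` or a prime
`l ∈ S` divides `v_p + 1`, and `S` has at most `(log P) ^ (1 - ε)` elements, then `N` is large. -/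
theorem size (ε : ℝ) (hε : 0 < ε) (A : ℕ) : ∃ c : ℝ, 0 < c ∧ ∃ P₀ : ℕ, ∀ N : ℕ, Odd N → N.Perfect →
    P₀ ≤ N.minFac → ∀ H : ℝ, 1 ≤ H → H ≤ Real.log N.minFac ^ A → ∀ S : Finset ℕ,
    (∀ l ∈ S, l.Prime ∧ (l : ℝ) ≤ Real.log N.minFac ^ A) →
    (S.card : ℝ) ≤ Real.log N.minFac ^ (1 - ε) →
    (∀ p ∈ N.primeFactors, (∃ l ∈ S, l ∣ N.factorization p + 1) ∨ H ≤ (N.factorization p : ℝ)) →
    c * H * (N.minFac : ℝ) ^ 2 ≤ Real.log N ∧
    c * H * (N.minFac : ℝ) ^ 2 / Real.log N.minFac ≤ ∑ p ∈ N.primeFactors, (N.factorization p : ℝ) := by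
  classical
  obtain ⟨D, P1, hD1, hP12, htail⟩ := tail_mass 2 (by norm_num)
  have hD1r : (1 : ℝ) ≤ D := by exact_mod_cast hD1
  obtain ⟨P2, hP23, hcount⟩ := count_min (ε / 2) (by positivity) A
  have htend : Tendsto (fun w : ℕ => Real.log (w : ℝ)) atTop atTop :=
    Real.tendsto_log_atTop.comp tendsto_natCast_atTop_atTop
  have hev : ∀ᶠ L : ℝ in atTop, 1 ≤ L ∧ 8 * (2 + Real.log (6 * D)) ≤ L ^ (ε / 2) ∧
      8 * A * Real.log L ≤ L ^ (ε / 2) := by
    have h1 := tendsto_rpow_atTop (show 0 < ε / 2 by positivity)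
    filter_upwards [eventually_ge_atTop (1 : ℝ), h1.eventually_ge_atTop (8 * (2 + Real.log (6 * D))),
      ev_log_le (ε / 2) (by positivity) (8 * A)] with L h1 h2 h3
    exact ⟨h1, h2, h3⟩
  obtain ⟨P3, hP3⟩ := (eventually_atTop.1 (htend.eventually hev))
  refine ⟨1 / (2 * D), by positivity, max (max P1 P2) P3,
    fun N hodd hperf hP H hH1 hHA S hS hScard hall => ?_⟩
  have hd := dat_of_perfect hodd hperf
  have hN0 := hperf.2.ne'
  have hsum := (Nat.perfect_iff_sum_divisors_eq_two_mul hperf.2).1 hperf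
  set P : ℕ := N.minFac with hPdef
  have hPP1 : P1 ≤ P := ((le_max_left _ _).trans (le_max_left _ _)).trans hP
  have hPP2 : P2 ≤ P := ((le_max_right _ _).trans (le_max_left _ _)).trans hP
  have hPP3 : P3 ≤ P := (le_max_right _ _).trans hP
  have hP2 : 2 ≤ P := by omega
  have hPr : (2 : ℝ) ≤ P := by exact_mod_cast hP2
  have hmin : ∀ p ∈ N.primeFactors, P ≤ p := fun p hp =>
    Nat.minFac_le_of_dvd (Nat.prime_of_mem_primeFactors hp).two_le (Nat.dvd_of_mem_primeFactors hp)
  obtain ⟨f1, f2, f3⟩ := hP3 P hPP3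
  set L : ℝ := Real.log (P : ℝ) with hL
  have hL0 : 0 < L := by linarith
  obtain ⟨hPY, htl⟩ := htail P hPP1
  set Y : ℕ := P ^ 2 / D with hY
  have hYr2 : (P : ℝ) ^ 2 / D < (Y : ℝ) + 1 := by
    have h1 : P ^ 2 < (Y + 1) * D := by
      rw [hY, mul_comm]
      exact Nat.lt_mul_div_succ _ (by omega)
    rw [div_lt_iff₀ (by linarith)]
    exact_mod_cast h1
  -- the whole mass beyond `Y`
  have hm1 : 1 / L ≤ ∑ q ∈ N.primeFactors.filter (fun q => ¬ q ≤ Y), 1 / (q : ℝ) :=
    htl N.primeFactors (fun q hq => ⟨Nat.prime_of_mem_primeFactors hq, hmin q hq⟩)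
      (log_two_le hd hP2 hmin)
  -- `log N` and `Ω N`
  have hlog : Real.log N = ∑ p ∈ N.primeFactors, (N.factorization p : ℝ) * Real.log p := by
    have h1 := Pool.Agent.Y959.Opn.prod_pow_eq hN0
    rw [← h1, Real.log_prod (fun p hp => by
      have := (Nat.prime_of_mem_primeFactors hp).pos
      positivity)]
    exact sum_congr rfl (fun p _ => Real.log_pow _ _)
  have hlogp : ∀ p ∈ N.primeFactors, L ≤ Real.log p := fun p hp =>
    Real.log_le_log (by linarith) (by exact_mod_cast hmin p hp)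
  -- general lower bounds
  have hgen : ∀ (G : Finset ℕ) (h M m : ℝ), G ⊆ N.primeFactors → 0 ≤ h → 0 < M → 
      (∀ p ∈ G, h ≤ (N.factorization p : ℝ) ∧ M ≤ p) → m ≤ ∑ p ∈ G, 1 / (p : ℝ) →
      h * M * L * m ≤ Real.log N ∧ h * M * m ≤ ∑ p ∈ N.primeFactors, (N.factorization p : ℝ) := by
    intro G h M m hG hh hM hGp hmG
    have hpos : ∀ p ∈ G, (0 : ℝ) < p := fun p hp => lt_of_lt_of_le hM (hGp p hp).2
    constructor
    · calc h * M * L * m ≤ h * M * L * ∑ p ∈ G, 1 / (p : ℝ) :=
            mul_le_mul_of_nonneg_left hmG (by positivity)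
        _ = ∑ p ∈ G, h * L * (M / p) := by
            rw [mul_sum]
            exact sum_congr rfl (fun p _ => by ring)
        _ ≤ ∑ p ∈ G, (N.factorization p : ℝ) * Real.log p := by
            apply sum_le_sum
            intro p hp
            obtain ⟨h1, h2⟩ := hGp p hp
            have h3 : M / (p : ℝ) ≤ 1 := by rw [div_le_one (hpos p hp)]; exact h2
            have h4 := hlogp p (hG hp)
            calc h * L * (M / p) ≤ h * L * 1 := mul_le_mul_of_nonneg_left h3 (by positivity)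
              _ = h * L := mul_one _
              _ ≤ N.factorization p * Real.log p :=
                  mul_le_mul h1 h4 hL0.le (Nat.cast_nonneg _)
        _ ≤ Real.log N := by
            rw [hlog]
            apply sum_le_sum_of_subset_of_nonneg hG
            intro p _ _
            exact mul_nonneg (Nat.cast_nonneg _) (Real.log_natCast_nonneg p)
    · calc h * M * m ≤ h * M * ∑ p ∈ G, 1 / (p : ℝ) :=
            mul_le_mul_of_nonneg_left hmG (by positivity)
        _ = ∑ p ∈ G, h * (M / p) := by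
            rw [mul_sum]
            exact sum_congr rfl (fun p _ => by ring)
        _ ≤ ∑ p ∈ G, (N.factorization p : ℝ) := by
            apply sum_le_sum
            intro p hp
            obtain ⟨h1, h2⟩ := hGp p hp
            have h3 : M / (p : ℝ) ≤ 1 := by rw [div_le_one (hpos p hp)]; exact h2
            calc h * (M / p) ≤ h * 1 := mul_le_mul_of_nonneg_left h3 hh
              _ ≤ _ := by rw [mul_one]; exact h1
        _ ≤ _ := by
            apply sum_le_sum_of_subset_of_nonneg hG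
            intro p _ _
            exact Nat.cast_nonneg _
  -- the target follows from `h M m ≥ H P² / (2 D L)`
  have hgoal : ∀ t : ℝ, H * ((P : ℝ) ^ 2 / D) * (1 / (2 * L)) ≤ t → t * L ≤ Real.log N →
      t ≤ ∑ p ∈ N.primeFactors, (N.factorization p : ℝ) →
      1 / (2 * D) * H * (P : ℝ) ^ 2 ≤ Real.log N ∧
      1 / (2 * D) * H * (P : ℝ) ^ 2 / L ≤ ∑ p ∈ N.primeFactors, (N.factorization p : ℝ) := by
    intro t ht h1 h2
    have e1 : 1 / (2 * D) * H * (P : ℝ) ^ 2 / L = H * ((P : ℝ) ^ 2 / D) * (1 / (2 * L)) := by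
      field_simp
    constructor
    · refine le_trans ?_ h1
      rw [← div_le_iff₀ hL0, e1]
      exact ht
    · rw [e1]; exact ht.trans h2
  set X : ℕ := ⌈4 * H * (P : ℝ) ^ 2⌉₊ with hX
  have hXr : 4 * H * (P : ℝ) ^ 2 ≤ X := Nat.le_ceil _
  have hXr2 : (X : ℝ) < 4 * H * (P : ℝ) ^ 2 + 1 := Nat.ceil_lt_add_one (by positivity)
  have hP2D : (P : ℝ) ^ 2 / D ≤ (P : ℝ) ^ 2 := div_le_self (by positivity) hD1r
  have hHP : 0 < H * (P : ℝ) ^ 2 := by positivity
  rcases lt_or_ge (1 / (4 * L)) (∑ p ∈ N.primeFactors.filter (fun p => X < p), 1 / (p : ℝ))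
    with hbig | hsmall
  · -- large mass beyond `X`
    have h1 := hgen (N.primeFactors.filter (fun p => X < p)) 1 X (1 / (4 * L)) (filter_subset _ _)
      zero_le_one (by linarith) (fun p hp => by
        obtain ⟨h2, h3⟩ := mem_filter.1 hp
        refine ⟨by exact_mod_cast hd.pos p h2, by exact_mod_cast h3.le⟩) hbig.le
    refine hgoal (1 * X * (1 / (4 * L))) ?_ ?_ h1.2
    · calc H * ((P : ℝ) ^ 2 / D) * (1 / (2 * L)) ≤ H * (P : ℝ) ^ 2 * (1 / (2 * L)) := by
            apply mul_le_mul_of_nonneg_right _ (by positivity)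
            exact mul_le_mul_of_nonneg_left hP2D (by linarith)
        _ ≤ 1 * (4 * H * (P : ℝ) ^ 2) * (1 / (4 * L)) := by
            have e1 : H * (P : ℝ) ^ 2 * (1 / (2 * L)) = (H * (P : ℝ) ^ 2 / L) * (1 / 2) := by
              field_simp
            have e2 : 1 * (4 * H * (P : ℝ) ^ 2) * (1 / (4 * L)) = H * (P : ℝ) ^ 2 / L := by
              field_simp
            rw [e1, e2]
            have : 0 < H * (P : ℝ) ^ 2 / L := by positivity
            linarith
        _ ≤ 1 * X * (1 / (4 * L)) := by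
            apply mul_le_mul_of_nonneg_right _ (by positivity)
            linarith
    · refine le_trans (le_of_eq ?_) h1.1
      ring
  · -- the bad primes
    set Bd : Finset ℕ := N.primeFactors.filter (fun p => ∃ l ∈ S, l ∣ N.factorization p + 1) with hBd
    have hYX : Y ≤ X := by
      have h1 : (Y : ℝ) ≤ (P : ℝ) ^ 2 / D := by
        have : ((P ^ 2 / D : ℕ) : ℝ) ≤ ((P ^ 2 : ℕ) : ℝ) / D := Nat.cast_div_le
        rw [hY]
        refine this.trans (le_of_eq ?_)
        push_cast
        rfl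
      have h2 : (Y : ℝ) ≤ X := by
        have : (P : ℝ) ^ 2 ≤ 4 * H * (P : ℝ) ^ 2 := by nlinarith
        linarith
      exact_mod_cast h2
    have hbad : ∑ q ∈ Bd.filter (fun q => Y < q ∧ q ≤ X), 1 / (q : ℝ) ≤ 1 / (4 * L) := by
      have h1 := mass_le Bd Y X (by omega) hYX (S.card * L ^ (ε / 2 - 2))
        (by positivity) (by
          intro n hn _
          have h2 : (Bd.filter (fun q => q ≤ n)) ⊆ S.biUnion (fun l =>
              N.primeFactors.filter (fun p => p ≤ n ∧ l ∣ N.factorization p + 1)) := by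
            intro p hp
            obtain ⟨h3, h4⟩ := mem_filter.1 hp
            obtain ⟨h5, l, hl, hld⟩ := mem_filter.1 h3
            exact mem_biUnion.2 ⟨l, hl, mem_filter.2 ⟨h5, h4, hld⟩⟩
          calc ((Bd.filter (fun q => q ≤ n)).card : ℝ) ≤ ∑ l ∈ S,
                ((N.primeFactors.filter (fun p => p ≤ n ∧ l ∣ N.factorization p + 1)).card : ℝ) := by
                exact_mod_cast (card_le_card h2).trans card_biUnion_le
            _ ≤ ∑ _l ∈ S, (n : ℝ) * L ^ (ε / 2 - 2) := by
                apply sum_le_sum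
                intro l hl
                exact hcount N hN0 hsum hPP2 l (hS l hl).1 (hS l hl).2 n (hPY.trans hn)
            _ = S.card * L ^ (ε / 2 - 2) * n := by
                rw [sum_const, nsmul_eq_mul]; ring)
      refine h1.trans ?_
      have h2 : ((X : ℝ) + 1) / ((Y : ℝ) + 1) ≤ 6 * D * L ^ A := by
        rw [div_le_iff₀ (by positivity)]
        have h3 : (X : ℝ) + 1 ≤ 6 * H * (P : ℝ) ^ 2 := by nlinarith [sq_nonneg ((P : ℝ) - 1)]
        have h4 : (P : ℝ) ^ 2 ≤ D * ((Y : ℝ) + 1) := by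
          rw [div_lt_iff₀ (by linarith)] at hYr2
          linarith
        calc (X : ℝ) + 1 ≤ 6 * H * (P : ℝ) ^ 2 := h3
          _ ≤ 6 * H * (D * ((Y : ℝ) + 1)) := mul_le_mul_of_nonneg_left h4 (by linarith)
          _ ≤ 6 * L ^ A * (D * ((Y : ℝ) + 1)) := by
              apply mul_le_mul_of_nonneg_right _ (by positivity)
              linarith
          _ = 6 * D * L ^ A * ((Y : ℝ) + 1) := by ring
      have h3 : 2 + Real.log (((X : ℝ) + 1) / ((Y : ℝ) + 1)) ≤ L ^ (ε / 2) / 4 := by
        have h4 : Real.log (((X : ℝ) + 1) / ((Y : ℝ) + 1)) ≤ Real.log (6 * D) + A * Real.log L := by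
          rw [← Real.log_pow, ← Real.log_mul (by positivity) (by positivity)]
          exact Real.log_le_log (by positivity) h2
        linarith
      have h4 : 0 ≤ S.card * L ^ (ε / 2 - 2) := by positivity
      calc S.card * L ^ (ε / 2 - 2) * (2 + Real.log (((X : ℝ) + 1) / ((Y : ℝ) + 1)))
          ≤ S.card * L ^ (ε / 2 - 2) * (L ^ (ε / 2) / 4) := mul_le_mul_of_nonneg_left h3 h4
        _ ≤ L ^ (1 - ε) * L ^ (ε / 2 - 2) * (L ^ (ε / 2) / 4) := by
            apply mul_le_mul_of_nonneg_right _ (by positivity)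
            exact mul_le_mul_of_nonneg_right hScard (by positivity)
        _ = 1 / (4 * L) := by
            have : L ^ (1 - ε) * L ^ (ε / 2 - 2) * (L ^ (ε / 2) / 4) =
                (L ^ (1 - ε) * L ^ (ε / 2 - 2) * L ^ (ε / 2)) / 4 := by ring
            rw [this, ← Real.rpow_add hL0, ← Real.rpow_add hL0,
              show 1 - ε + (ε / 2 - 2) + ε / 2 = -1 by ring, Real.rpow_neg_one]
            field_simp
    -- the good primes beyond `Y`
    set G : Finset ℕ := N.primeFactors.filter (fun p => Y < p ∧ H ≤ (N.factorization p : ℝ)) with hG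
    have hcov : N.primeFactors.filter (fun q => ¬ q ≤ Y) ⊆
        G ∪ (Bd.filter (fun q => Y < q ∧ q ≤ X) ∪ N.primeFactors.filter (fun p => X < p)) := by
      intro p hp
      obtain ⟨h1, h2⟩ := mem_filter.1 hp
      rw [mem_union, mem_union]
      rcases hall p h1 with h3 | h3
      · right
        rcases Nat.lt_or_ge X p with h4 | h4
        · right; exact mem_filter.2 ⟨h1, h4⟩
        · left; exact mem_filter.2 ⟨mem_filter.2 ⟨h1, h3⟩, by omega, h4⟩
      · left; exact mem_filter.2 ⟨h1, by omega, h3⟩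
    have hpos : ∀ (s : Finset ℕ), 0 ≤ ∑ p ∈ s, 1 / (p : ℝ) := fun s =>
      sum_nonneg (fun p _ => by positivity)
    have hun : ∀ s t : Finset ℕ, ∑ p ∈ s ∪ t, 1 / (p : ℝ) ≤ ∑ p ∈ s, 1 / (p : ℝ) +
        ∑ p ∈ t, 1 / (p : ℝ) := by
      intro s t
      rw [← Finset.sum_union_inter]
      have := hpos (s ∩ t)
      linarith
    have hgood : 1 / (2 * L) ≤ ∑ p ∈ G, 1 / (p : ℝ) := by
      have h1 : ∑ q ∈ N.primeFactors.filter (fun q => ¬ q ≤ Y), 1 / (q : ℝ) ≤
          ∑ q ∈ G ∪ (Bd.filter (fun q => Y < q ∧ q ≤ X) ∪ N.primeFactors.filter (fun p => X < p)),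
            1 / (q : ℝ) := sum_le_sum_of_subset_of_nonneg hcov (fun p _ _ => by positivity)
      have h2 := hun G (Bd.filter (fun q => Y < q ∧ q ≤ X) ∪ N.primeFactors.filter (fun p => X < p))
      have h3 := hun (Bd.filter (fun q => Y < q ∧ q ≤ X)) (N.primeFactors.filter (fun p => X < p))
      have e1 : 1 / L = 1 / (2 * L) + 1 / (4 * L) + 1 / (4 * L) := by
        field_simp
        norm_num
      linarith
    have h1 := hgen G H ((P : ℝ) ^ 2 / D) (1 / (2 * L)) (filter_subset _ _) (by linarith)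
      (by positivity) (fun p hp => by
        obtain ⟨h2, h3, h4⟩ := mem_filter.1 hp
        refine ⟨h4, ?_⟩
        have : (Y : ℝ) + 1 ≤ p := by exact_mod_cast h3
        linarith) hgood
    refine hgoal (H * ((P : ℝ) ^ 2 / D) * (1 / (2 * L))) le_rfl ?_ h1.2
    refine le_trans (le_of_eq ?_) h1.1
    ring

end Pool.Agent.N672.Opn
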