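import Mathlib
import Pool.Agent.N672.Opn.Size
import Pool.Agent.N672.Opn.SiftM

set_option autoImplicit false

/-!
# A few small primes do not cover the numbers `v_p + 1`

The count of the prime factors in the progression `1` modulo `m` (`m = 1` or `m ∈ S`) up to `w ^ 2` is
bounded by a sieve by the primes which do not divide `N`; the loss is bounded since the sums
`∑_{q ∣ N, q ≡ 1 mod l} l / q` up to `w` are at most one by induction.
-/

namespace Pool.Agent.N672.Opn
open Finset Filter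
open Pool.Agent.Y959.Opn (Dat sg dat_of_perfect)
open Pool.Agent.Y959.Sv (log_two_le Pz mem_Pz sum_recip_le)

/-- the count in a progression -/
theorem count_leM {N : ℕ} (hN : N ≠ 0) (hsum : ∑ d ∈ N.divisors, d = 2 * N) (l m : ℕ)
    (z y X : ℕ) (hz : 2 ≤ z) (hm : 1 ≤ m) :
    ((N.primeFactors.filter (fun p => p ≡ 1 [MOD m] ∧ p ≤ X ∧ l ∣ N.factorization p + 1)).card : ℝ) ≤
      y + (((Icc 1 (X / m)).filter (fun b => ∀ r ∈ (Pz z y).filter (fun r => ¬ r ∣ N),
        b % r ∉ Jm m l r)).card : ℝ) := by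
  classical
  set Q := N.primeFactors.filter (fun p => p ≡ 1 [MOD m] ∧ p ≤ X ∧ l ∣ N.factorization p + 1) with hQ
  set T := (Icc 1 (X / m)).filter (fun b => ∀ r ∈ (Pz z y).filter (fun r => ¬ r ∣ N),
        b % r ∉ Jm m l r) with hT
  have hdiv : ∀ q ∈ Q, m ∣ q - 1 := fun q hq => by
    obtain ⟨h1, h2, _⟩ := mem_filter.1 hq
    exact (Nat.modEq_iff_dvd' (Nat.prime_of_mem_primeFactors h1).one_lt.le).1 h2.symm
  have h1 : (Q.filter (fun q => ¬ q ≤ y)).card ≤ T.card := by
    apply card_le_card_of_injOn (fun q => (q - 1) / m)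
    · intro q hq
      obtain ⟨hq1, hqy⟩ := mem_filter.1 (mem_coe.1 hq)
      obtain ⟨h2, h3, h4, h5⟩ := mem_filter.1 hq1
      have hqp := Nat.prime_of_mem_primeFactors h2
      obtain ⟨b, hb⟩ := hdiv q hq1
      have hqb : q = 1 + m * b := by have := hqp.one_lt; omega
      have hbq : (q - 1) / m = b := by rw [hb, Nat.mul_div_cancel_left _ (by omega)]
      simp only [hbq]
      rw [mem_coe, hT, mem_filter, mem_Icc]
      refine ⟨⟨?_, ?_⟩, fun r hr => ?_⟩
      · rcases Nat.eq_zero_or_pos b with h0 | h0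
        · rw [h0, mul_zero] at hqb
          exact absurd hqp (by rw [hqb]; decide)
        · exact h0
      · rw [Nat.le_div_iff_mul_le (by omega), mul_comm]
        omega
      · obtain ⟨hr1, hrN⟩ := mem_filter.1 hr
        obtain ⟨⟨hzr, hry⟩, hrp⟩ := mem_Pz.1 hr1
        apply mod_notMem_Jm
        rw [← hqb]
        apply mod_notMem
        · intro h
          have := (Nat.prime_dvd_prime_iff_eq hrp hqp).1 h
          omega
        · intro _ h
          apply hrN
          have h6 : r ∣ ∑ i ∈ range (N.factorization q + 1), q ^ i := by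
            obtain ⟨c, hc⟩ := h5
            rw [hc]
            exact h.trans (geom_dvd q l c)
          have h7 : r ∣ 2 * N := by
            rw [← hsum, Nat.sum_divisors hN]
            exact h6.trans (Finset.dvd_prod_of_mem
              (fun p => ∑ i ∈ range (N.factorization p + 1), p ^ i) h2)
          rcases (Nat.Prime.dvd_mul hrp).1 h7 with h8 | h8
          · have := (Nat.prime_dvd_prime_iff_eq hrp Nat.prime_two).1 h8
            omega
          · exact h8
    · intro q hq q' hq' h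
      have h2 := hdiv q (mem_filter.1 (mem_coe.1 hq)).1
      have h3 := hdiv q' (mem_filter.1 (mem_coe.1 hq')).1
      have h4 := (Nat.prime_of_mem_primeFactors
        (mem_filter.1 (mem_filter.1 (mem_coe.1 hq)).1).1).one_lt
      have h5 := (Nat.prime_of_mem_primeFactors
        (mem_filter.1 (mem_filter.1 (mem_coe.1 hq')).1).1).one_lt
      have h6 := Nat.div_mul_cancel h2
      have h7 := Nat.div_mul_cancel h3
      simp only at h
      rw [h] at h6
      omega
  have h2 : (Q.filter (fun q => q ≤ y)).card ≤ y := by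
    have h3 : Q.filter (fun q => q ≤ y) ⊆ Icc 1 y := by
      intro q hq
      obtain ⟨h4, h5⟩ := mem_filter.1 hq
      exact mem_Icc.2 ⟨(Nat.prime_of_mem_primeFactors (mem_filter.1 h4).1).one_lt.le, h5⟩
    have h4 := card_le_card h3
    rwa [Nat.card_Icc, Nat.add_sub_cancel] at h4
  have h3 := Finset.card_filter_add_card_filter_not (s := Q) (fun q => q ≤ y)
  have h4 : Q.card ≤ y + T.card := by omega
  exact_mod_cast h4

/-- **Main proposition.** A few small primes `l` do not cover all the numbers `v_p + 1`. -/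
theorem cover (ε : ℝ) (hε : 0 < ε) (A : ℕ) : ∃ P₀ : ℕ, ∀ N : ℕ, Odd N → N.Perfect →
    P₀ ≤ N.minFac → ∀ S : Finset ℕ,
    (∀ l ∈ S, l.Prime ∧ (l : ℝ) ≤ Real.log N.minFac ^ A) →
    (S.card : ℝ) ≤ Real.log N.minFac ^ (1 - ε) →
    ∃ p ∈ N.primeFactors, ∀ l ∈ S, ¬ l ∣ N.factorization p + 1 := by
  classical
  set δ : ℝ := min (ε / 10) (1 / 10) with hδdef
  have hδ : 0 < δ := lt_min (by positivity) (by norm_num)
  have hδε : δ ≤ ε / 10 := min_le_left _ _
  have hδ10 : δ ≤ 1 / 10 := min_le_right _ _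
  obtain ⟨w₀, hw3, hsift⟩ := siftM δ hδ (by linarith) A
  have htend : Tendsto (fun w : ℕ => Real.log (w : ℝ)) atTop atTop :=
    Real.tendsto_log_atTop.comp tendsto_natCast_atTop_atTop
  have hev : ∀ᶠ L : ℝ in atTop, 1 ≤ L ∧ (A + 2) * Real.log L ≤ L / 2 ∧
      Real.log 2 + A * Real.log L ≤ L := by
    have h1 := ev_log_le 1 one_pos (2 * (A + 2))
    have h2 := ev_log_le 1 one_pos (2 * A)
    filter_upwards [eventually_ge_atTop (8 : ℝ), h1, h2] with L h1 h2 h3
    rw [Real.rpow_one] at h2 h3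
    have := Real.log_two_lt_d9
    exact ⟨by linarith, by linarith, by linarith⟩
  obtain ⟨w1, hw1⟩ := (eventually_atTop.1 (htend.eventually hev))
  have hev2 : ∀ᶠ L : ℝ in atTop, 12 ≤ L ∧ 96 ≤ L ^ (ε / 2) := by
    have h1 := tendsto_rpow_atTop (show 0 < ε / 2 by positivity)
    filter_upwards [eventually_ge_atTop (12 : ℝ), h1.eventually_ge_atTop 96] with L h1 h2
    exact ⟨h1, h2⟩
  obtain ⟨w2, hw2⟩ := (eventually_atTop.1 (htend.eventually hev2))
  refine ⟨max (max w₀ w1) (max w2 12), fun N hodd hperf hP S hS hScard => ?_⟩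
  have hd := dat_of_perfect hodd hperf
  have hN0 := hperf.2.ne'
  have hsum := (Nat.perfect_iff_sum_divisors_eq_two_mul hperf.2).1 hperf
  set P : ℕ := N.minFac with hPdef
  have hPw0 : w₀ ≤ P := ((le_max_left _ _).trans (le_max_left _ _)).trans hP
  have hPw1 : w1 ≤ P := ((le_max_right _ _).trans (le_max_left _ _)).trans hP
  have hPw2 : w2 ≤ P := ((le_max_left _ _).trans (le_max_right _ _)).trans hP
  have hP12 : 12 ≤ P := ((le_max_right _ _).trans (le_max_right _ _)).trans hP
  have hP2 : 2 ≤ P := by omega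
  have hPr : (12 : ℝ) ≤ P := by exact_mod_cast hP12
  have hP0 : (0 : ℝ) < P := by linarith
  have hmin : ∀ p ∈ N.primeFactors, P ≤ p := fun p hp =>
    Nat.minFac_le_of_dvd (Nat.prime_of_mem_primeFactors hp).two_le (Nat.dvd_of_mem_primeFactors hp)
  set L : ℝ := Real.log (P : ℝ) with hL
  obtain ⟨g1, g2⟩ := hw2 P hPw2
  obtain ⟨_, _, g3⟩ := hw1 P hPw1
  have hL0 : 0 < L := by linarith
  by_contra hcon
  push Not at hcon
  -- the mass in a class
  set M : ℕ → ℕ → ℝ := fun m w =>
    ∑ q ∈ N.primeFactors.filter (fun q => q ≡ 1 [MOD m] ∧ q ≤ w), 1 / (q : ℝ) with hM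
  have hmA : ∀ m ∈ insert 1 S, 1 ≤ m ∧ (m : ℝ) ≤ L ^ A := by
    intro m hm
    rcases mem_insert.1 hm with rfl | h
    · exact ⟨le_rfl, by rw [Nat.cast_one]; exact one_le_pow₀ (by linarith)⟩
    · exact ⟨(hS m h).1.one_lt.le, (hS m h).2⟩
  have hSL : 24 * S.card * L ^ (5 * δ - 1) ≤ 1 / 4 := by
    calc 24 * S.card * L ^ (5 * δ - 1) ≤ 24 * L ^ (1 - ε) * L ^ (5 * δ - 1) := by
          apply mul_le_mul_of_nonneg_right _ (by positivity)
          linarith
      _ = 24 * L ^ (5 * δ - ε) := by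
          rw [mul_assoc, ← Real.rpow_add hL0]; congr 2; ring
      _ ≤ 24 * L ^ (-(ε / 2)) := by
          apply mul_le_mul_of_nonneg_left _ (by norm_num)
          exact Real.rpow_le_rpow_of_exponent_le (by linarith) (by linarith)
      _ = 24 / L ^ (ε / 2) := by rw [Real.rpow_neg hL0.le]; rfl
      _ ≤ 1 / 4 := by
          rw [div_le_iff₀ (by linarith)]
          linarith
  have hLAP : L ^ A / P ≤ 1 / 2 := by
    rw [div_le_iff₀ hP0]
    have h1 : 2 * L ^ A ≤ P := by
      calc 2 * L ^ A = Real.exp (Real.log 2 + A * Real.log L) := by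
            rw [Real.exp_add, Real.exp_log (by norm_num), Real.exp_nat_mul, Real.exp_log hL0]
        _ ≤ Real.exp L := Real.exp_le_exp.2 g3
        _ = P := by rw [hL, Real.exp_log hP0]
    linarith
  -- the count
  have hcnt : ∀ w : ℕ, P ≤ w → (∀ l ∈ S, (l : ℝ) * M l w ≤ 1) → ∀ m ∈ insert 1 S,
      ∀ X : ℕ, w ≤ X →
      (((N.primeFactors.filter (fun q => q ≡ 1 [MOD m])).filter (fun p => p ≤ X)).card : ℝ) ≤
        (2 * S.card / m * Real.log w ^ (5 * δ - 2)) * X := by
    intro w hw hH m hm X hX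
    obtain ⟨hm1, hmA'⟩ := hmA m hm
    have hm0 : (0 : ℝ) < m := by exact_mod_cast hm1
    obtain ⟨a1, a2, a5, a6, a4⟩ := hsift w (hPw0.trans hw)
    set y := Yf δ w with hy
    set z := Zf δ w with hz
    obtain ⟨b1, b2, _⟩ := hw1 w (hPw1.trans hw)
    have hw0 : (0 : ℝ) < w := by exact_mod_cast (by omega : 0 < w)
    have hlw0 : 0 < Real.log w := by linarith
    have hlog : L ≤ Real.log w := Real.log_le_log (by linarith) (by exact_mod_cast hw)
    have hyw : y ≤ w := (Nat.le_self_pow (by norm_num) y).trans a2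
    have hLw : L ^ A ≤ Real.log w ^ A := pow_le_pow_left₀ hL0.le hlog A
    -- the small term
    have hysm : (y : ℝ) ≤ X / m * Real.log w ^ (5 * δ - 2) := by
      have hy4 : (y : ℝ) ≤ (w : ℝ) ^ (1 / 4 : ℝ) := by
        have h1 : ((y : ℝ) ^ 4) ≤ w := by exact_mod_cast a2
        calc (y : ℝ) = ((y : ℝ) ^ 4) ^ (1 / 4 : ℝ) := by
              rw [← Real.rpow_natCast, ← Real.rpow_mul (Nat.cast_nonneg _)]
              norm_num
          _ ≤ (w : ℝ) ^ (1 / 4 : ℝ) := Real.rpow_le_rpow (by positivity) h1 (by norm_num)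
      have e1 : (w : ℝ) ^ (1 / 4 : ℝ) * Real.log w ^ A ≤ w * Real.log w ^ (-2 : ℝ) := by
        have e2 : (w : ℝ) ^ (1 / 4 : ℝ) * Real.log w ^ A =
            Real.exp (1 / 4 * Real.log w + A * Real.log (Real.log w)) := by
          rw [Real.exp_add, Real.exp_nat_mul, Real.exp_log hlw0, Real.rpow_def_of_pos hw0,
            mul_comm (Real.log (w : ℝ))]
        have e3 : (w : ℝ) * Real.log w ^ (-2 : ℝ) =
            Real.exp (Real.log w - 2 * Real.log (Real.log w)) := by
          rw [sub_eq_add_neg, Real.exp_add, Real.exp_log hw0, Real.rpow_def_of_pos hlw0]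
          congr 2
          ring
        rw [e2, e3]
        apply Real.exp_le_exp.2
        linarith
      have e4 : (y : ℝ) * m ≤ w * Real.log w ^ (5 * δ - 2) := by
        calc (y : ℝ) * m ≤ (w : ℝ) ^ (1 / 4 : ℝ) * Real.log w ^ A :=
              mul_le_mul hy4 (hmA'.trans hLw) hm0.le (by positivity)
          _ ≤ w * Real.log w ^ (-2 : ℝ) := e1
          _ ≤ w * Real.log w ^ (5 * δ - 2) := by
              apply mul_le_mul_of_nonneg_left _ hw0.le
              exact Real.rpow_le_rpow_of_exponent_le b1 (by linarith)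
      have e5 : (y : ℝ) ≤ w / m * Real.log w ^ (5 * δ - 2) := by
        rw [div_mul_eq_mul_div, le_div_iff₀ hm0]
        exact e4
      refine e5.trans ?_
      apply mul_le_mul_of_nonneg_right _ (by positivity)
      exact div_le_div_of_nonneg_right (by exact_mod_cast hX) hm0.le
    have hN1 : ∑ r ∈ (Pz z y).filter (fun r => r ∣ N), 1 / (r : ℝ) ≤ 1 := by
      refine le_trans (sum_le_sum_of_subset_of_nonneg ?_ (fun r _ _ => by positivity))
        (sum_recip_le hsum hN0)
      intro r hr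
      obtain ⟨h1, h2⟩ := mem_filter.1 hr
      exact Nat.mem_primeFactors.2 ⟨(mem_Pz.1 h1).2, h2, hN0⟩
    have hN2 : ∀ l ∈ S, ∑ r ∈ (Pz z y).filter (fun r => r ∣ N ∧ r ≡ 1 [MOD l]),
        ((l : ℝ) - 1) / r ≤ 1 := by
      intro l hl
      refine le_trans ?_ (hH l hl)
      simp only [hM]
      rw [mul_sum]
      refine le_trans (sum_le_sum (g := fun r : ℕ => (l : ℝ) * (1 / r)) ?_)
        (sum_le_sum_of_subset_of_nonneg ?_ (fun r _ _ => by positivity))
      · intro r _
        rw [mul_one_div]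
        exact div_le_div_of_nonneg_right (by linarith) (Nat.cast_nonneg _)
      · intro r hr
        obtain ⟨h1, h2, h3⟩ := mem_filter.1 hr
        exact mem_filter.2 ⟨Nat.mem_primeFactors.2 ⟨(mem_Pz.1 h1).2, h2, hN0⟩, h3,
          (mem_Pz.1 h1).1.2.trans hyw⟩
    have hsub : (N.primeFactors.filter (fun q => q ≡ 1 [MOD m])).filter (fun p => p ≤ X) ⊆
        S.biUnion (fun l => N.primeFactors.filter
          (fun p => p ≡ 1 [MOD m] ∧ p ≤ X ∧ l ∣ N.factorization p + 1)) := by
      intro p hp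
      obtain ⟨h1, h2⟩ := mem_filter.1 hp
      obtain ⟨h3, h4⟩ := mem_filter.1 h1
      obtain ⟨l, hl, hld⟩ := hcon p h3
      exact mem_biUnion.2 ⟨l, hl, mem_filter.2 ⟨h3, h4, h2, hld⟩⟩
    calc (((N.primeFactors.filter (fun q => q ≡ 1 [MOD m])).filter (fun p => p ≤ X)).card : ℝ)
        ≤ ∑ l ∈ S, ((N.primeFactors.filter
          (fun p => p ≡ 1 [MOD m] ∧ p ≤ X ∧ l ∣ N.factorization p + 1)).card : ℝ) := by
          exact_mod_cast (card_le_card hsub).trans card_biUnion_le
      _ ≤ ∑ _l ∈ S, (2 * ((X : ℝ) / m * Real.log w ^ (5 * δ - 2))) := by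
          apply sum_le_sum
          intro l hl
          have h1 := count_leM hN0 hsum l m z y X (by omega) hm1
          have h2 := a4 N l m (hS l hl).1 ((hS l hl).2.trans hLw) hm1 (hmA'.trans hLw) hN1
            (hN2 l hl) X hX
          linarith
      _ = (2 * S.card / m * Real.log w ^ (5 * δ - 2)) * X := by
          rw [sum_const, nsmul_eq_mul]; ring
  -- one dyadic range
  have hdy : ∀ w : ℕ, P ≤ w → (∀ l ∈ S, (l : ℝ) * M l w ≤ 1) → ∀ m ∈ insert 1 S,
      (m : ℝ) * ∑ q ∈ (N.primeFactors.filter (fun q => q ≡ 1 [MOD m])).filter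
        (fun q => w < q ∧ q ≤ w ^ 2), 1 / (q : ℝ) ≤ 6 * S.card * Real.log w ^ (5 * δ - 1) := by
    intro w hw hH m hm
    obtain ⟨hm1, hmA'⟩ := hmA m hm
    have hm0 : (0 : ℝ) < m := by exact_mod_cast hm1
    have hw0 : (0 : ℝ) < w := by exact_mod_cast (by omega : 0 < w)
    have hw1r : (1 : ℝ) ≤ w := by exact_mod_cast (by omega : 1 ≤ w)
    have hlog : L ≤ Real.log w := Real.log_le_log (by linarith) (by exact_mod_cast hw)
    have hlw0 : 0 < Real.log w := by linarith
    have h1 := mass_le (N.primeFactors.filter (fun q => q ≡ 1 [MOD m])) w (w ^ 2) (by omega)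
      (Nat.le_self_pow (by norm_num) w)
      (2 * S.card / m * Real.log w ^ (5 * δ - 2)) (by positivity)
      (fun n hn _ => hcnt w hw hH m hm n hn)
    have h2 : Real.log ((((w ^ 2 : ℕ) : ℝ) + 1) / ((w : ℝ) + 1)) ≤ Real.log w := by
      apply Real.log_le_log (by positivity)
      rw [div_le_iff₀ (by positivity)]
      push_cast
      nlinarith
    have h3 : 2 + Real.log ((((w ^ 2 : ℕ) : ℝ) + 1) / ((w : ℝ) + 1)) ≤ 3 * Real.log w := by linarith
    calc (m : ℝ) * ∑ q ∈ (N.primeFactors.filter (fun q => q ≡ 1 [MOD m])).filter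
          (fun q => w < q ∧ q ≤ w ^ 2), 1 / (q : ℝ)
        ≤ m * ((2 * S.card / m * Real.log w ^ (5 * δ - 2)) *
          (2 + Real.log ((((w ^ 2 : ℕ) : ℝ) + 1) / ((w : ℝ) + 1)))) :=
          mul_le_mul_of_nonneg_left h1 hm0.le
      _ ≤ m * ((2 * S.card / m * Real.log w ^ (5 * δ - 2)) * (3 * Real.log w)) := by
          apply mul_le_mul_of_nonneg_left _ hm0.le
          exact mul_le_mul_of_nonneg_left h3 (by positivity)
      _ = 6 * S.card * (Real.log w ^ (5 * δ - 2) * Real.log w ^ (1 : ℝ)) := by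
          rw [Real.rpow_one]
          field_simp
          ring
      _ = 6 * S.card * Real.log w ^ (5 * δ - 1) := by
          rw [← Real.rpow_add hlw0]; congr 2; ring
  have hgeo : ∀ J : ℕ, ∑ j ∈ range J, (3 / 4 : ℝ) ^ j ≤ 4 := by
    intro J
    rw [geom_sum_eq (by norm_num)]
    have : (0 : ℝ) < (3 / 4 : ℝ) ^ J := by positivity
    rw [div_le_iff_of_neg (by norm_num)]
    linarith
  -- all dyadic ranges
  have hall : ∀ J : ℕ, ∀ m ∈ insert 1 S, (m : ℝ) * M m (P ^ (2 ^ J)) ≤
      m / P + 6 * S.card * L ^ (5 * δ - 1) * ∑ j ∈ range J, (3 / 4 : ℝ) ^ j := by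
    intro J
    induction J with
    | zero =>
      intro m hm
      have h1 : M m (P ^ (2 ^ 0)) ≤ 1 / P := by
        simp only [hM, pow_zero, pow_one]
        have hsub : N.primeFactors.filter (fun q => q ≡ 1 [MOD m] ∧ q ≤ P) ⊆ {P} := by
          intro q hq
          obtain ⟨h1, _, h2⟩ := mem_filter.1 hq
          rw [mem_singleton]
          exact le_antisymm h2 (hmin q h1)
        refine (sum_le_sum_of_subset_of_nonneg hsub (fun p _ _ => by positivity)).trans ?_
        rw [sum_singleton]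
      rw [range_zero, sum_empty, mul_zero, add_zero]
      calc (m : ℝ) * M m (P ^ (2 ^ 0)) ≤ m * (1 / P) :=
            mul_le_mul_of_nonneg_left h1 (Nat.cast_nonneg _)
        _ = m / P := by rw [mul_one_div]
    | succ J ih =>
      intro m hm
      set w := P ^ (2 ^ J) with hw
      have hPw : P ≤ w := Nat.le_self_pow (by positivity) P
      have hw2 : P ^ (2 ^ (J + 1)) = w ^ 2 := by rw [hw, ← pow_mul, pow_succ]
      have hH : ∀ l ∈ S, (l : ℝ) * M l w ≤ 1 := by
        intro l hl
        have h1 := ih l (mem_insert_of_mem hl)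
        have h2 : (l : ℝ) / P ≤ 1 / 2 :=
          (div_le_div_of_nonneg_right (hS l hl).2 hP0.le).trans hLAP
        have h3 : 6 * S.card * L ^ (5 * δ - 1) * ∑ j ∈ range J, (3 / 4 : ℝ) ^ j ≤
            6 * S.card * L ^ (5 * δ - 1) * 4 := mul_le_mul_of_nonneg_left (hgeo J) (by positivity)
        linarith
      have h2 := hdy w hPw hH m hm
      have h1 : M m (P ^ (2 ^ (J + 1))) ≤ M m w +
          ∑ q ∈ (N.primeFactors.filter (fun q => q ≡ 1 [MOD m])).filter
            (fun q => w < q ∧ q ≤ w ^ 2), 1 / (q : ℝ) := by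
        simp only [hM]
        have hsub : N.primeFactors.filter (fun q => q ≡ 1 [MOD m] ∧ q ≤ P ^ (2 ^ (J + 1))) ⊆
            N.primeFactors.filter (fun q => q ≡ 1 [MOD m] ∧ q ≤ w) ∪
            (N.primeFactors.filter (fun q => q ≡ 1 [MOD m])).filter
              (fun q => w < q ∧ q ≤ w ^ 2) := by
          intro q hq
          obtain ⟨h1, h2, h3⟩ := mem_filter.1 hq
          rw [hw2] at h3
          rw [mem_union]
          rcases Nat.lt_or_ge w q with h4 | h4
          · right; exact mem_filter.2 ⟨mem_filter.2 ⟨h1, h2⟩, h4, h3⟩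
          · left; exact mem_filter.2 ⟨h1, h2, h4⟩
        refine (sum_le_sum_of_subset_of_nonneg hsub (fun p _ _ => by positivity)).trans ?_
        rw [← Finset.sum_union_inter]
        have : 0 ≤ ∑ q ∈ N.primeFactors.filter (fun q => q ≡ 1 [MOD m] ∧ q ≤ w) ∩
          (N.primeFactors.filter (fun q => q ≡ 1 [MOD m])).filter
              (fun q => w < q ∧ q ≤ w ^ 2), 1 / (q : ℝ) :=
          sum_nonneg (fun p _ => by positivity)
        linarith
      have h3 : Real.log w ^ (5 * δ - 1) ≤ L ^ (5 * δ - 1) * (3 / 4 : ℝ) ^ J := by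
        have e1 : Real.log w = 2 ^ J * L := by
          rw [hw]; push_cast; rw [Real.log_pow]; push_cast; rfl
        rw [e1, Real.mul_rpow (by positivity) hL0.le, mul_comm]
        apply mul_le_mul_of_nonneg_left _ (by positivity)
        rw [← Real.rpow_natCast 2 J, ← Real.rpow_mul (by norm_num), mul_comm, Real.rpow_mul
          (by norm_num), Real.rpow_natCast]
        apply pow_le_pow_left₀ (by positivity)
        calc (2 : ℝ) ^ (5 * δ - 1) ≤ (2 : ℝ) ^ (-(1 / 2) : ℝ) :=
              Real.rpow_le_rpow_of_exponent_le (by norm_num) (by linarith)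
          _ ≤ 3 / 4 := by
              rw [Real.rpow_neg (by norm_num), ← Real.sqrt_eq_rpow]
              have h5 : (4 / 3 : ℝ) ≤ √2 := by
                apply Real.le_sqrt_of_sq_le
                norm_num
              calc (√2)⁻¹ ≤ (4 / 3 : ℝ)⁻¹ := inv_anti₀ (by norm_num) h5
                _ = 3 / 4 := by norm_num
      have h4 : (0 : ℝ) ≤ 6 * S.card := by positivity
      have h5 := mul_le_mul_of_nonneg_left h3 h4
      have h6 := mul_le_mul_of_nonneg_left h1 (Nat.cast_nonneg (α := ℝ) m)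
      have h7 := ih m hm
      rw [mul_add] at h6
      rw [sum_range_succ, mul_add]
      linarith
  -- the total mass
  have hNJ : N ≤ P ^ (2 ^ N) := by
    calc N ≤ 2 ^ N := Nat.lt_two_pow_self.le
      _ ≤ 2 ^ (2 ^ N) := Nat.pow_le_pow_right (by norm_num) Nat.lt_two_pow_self.le
      _ ≤ P ^ (2 ^ N) := Nat.pow_le_pow_left hP2 _
  have htot : ∑ q ∈ N.primeFactors, 1 / (q : ℝ) ≤ 1 / P + 24 * S.card * L ^ (5 * δ - 1) := by
    have h1 := hall N 1 (mem_insert_self _ _)
    have h2 : M 1 (P ^ (2 ^ N)) = ∑ q ∈ N.primeFactors, 1 / (q : ℝ) := by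
      simp only [hM]
      apply sum_congr _ (fun _ _ => rfl)
      apply filter_true_of_mem
      intro q hq
      have h3 : q ≤ N := Nat.le_of_dvd (Nat.pos_of_ne_zero hN0) (Nat.dvd_of_mem_primeFactors hq)
      exact ⟨Nat.modEq_one, h3.trans hNJ⟩
    rw [h2, Nat.cast_one, one_mul] at h1
    have h3 : 6 * S.card * L ^ (5 * δ - 1) * ∑ j ∈ range N, (3 / 4 : ℝ) ^ j ≤
        6 * S.card * L ^ (5 * δ - 1) * 4 := mul_le_mul_of_nonneg_left (hgeo N) (by positivity)
    linarith
  have hlow := log_two_le hd hP2 hmin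
  have h2 : 1 / (P : ℝ) ≤ 1 / 12 := one_div_le_one_div_of_le (by norm_num) hPr
  have h3 : 2 / L ≤ 1 / 6 := by
    rw [div_le_iff₀ hL0]
    linarith
  have h4 := Real.log_two_gt_d9
  linarith

end Pool.Agent.N672.Opn
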