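import Mathlib
import Pool.Agent.N672.Opn.Cover

set_option autoImplicit false

/-!
# Odd perfect numbers with a large least prime factor: consequences
-/

namespace Pool.Agent.N672.Opn
open Finset Filter

lemma card_primes_le (n : ℕ) : ((Icc 1 n).filter Nat.Prime).card ≤ n := by
  refine (card_filter_le _ _).trans ?_
  rw [Nat.card_Icc]; omega

/-- **Size.** -/
theorem size_fin (ε : ℝ) (hε : 0 < ε) : ∃ P₀ : ℕ, ∀ N : ℕ, Odd N → N.Perfect → P₀ ≤ N.minFac →
    (N.minFac : ℝ) ^ 2 * Real.log N.minFac ^ (1 - ε) ≤ Real.log N ∧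
    (N.minFac : ℝ) ^ 2 * Real.log N.minFac ^ (-ε) ≤
      ∑ p ∈ N.primeFactors, (N.factorization p : ℝ) := by
  classical
  set e : ℝ := min ε 1 with he
  have he0 : 0 < e := lt_min hε one_pos
  have he1 : e ≤ 1 := min_le_right _ _
  have heε : e ≤ ε := min_le_left _ _
  obtain ⟨c, hc, P1, h1⟩ := size (e / 4) (by positivity) 2
  have htend : Tendsto (fun w : ℕ => Real.log (w : ℝ)) atTop atTop :=
    Real.tendsto_log_atTop.comp tendsto_natCast_atTop_atTop
  have hev : ∀ᶠ L : ℝ in atTop, 2 ≤ L ∧ 2 ≤ L ^ (e / 4) ∧ 1 / c ≤ L ^ (e / 2) := by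
    have h1 := tendsto_rpow_atTop (show 0 < e / 4 by positivity)
    have h2 := tendsto_rpow_atTop (show 0 < e / 2 by positivity)
    filter_upwards [eventually_ge_atTop (2 : ℝ), h1.eventually_ge_atTop 2,
      h2.eventually_ge_atTop (1 / c)] with L h1 h2 h3
    exact ⟨h1, h2, h3⟩
  obtain ⟨P2, hP2⟩ := (eventually_atTop.1 (htend.eventually hev))
  refine ⟨max P1 P2, fun N hodd hperf hP => ?_⟩
  obtain ⟨g1, g2, g3⟩ := hP2 N.minFac ((le_max_right _ _).trans hP)
  set L : ℝ := Real.log (N.minFac : ℝ) with hL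
  have hL0 : 0 < L := by linarith
  set H : ℝ := L ^ (1 - e / 2) with hH
  have hH1 : 1 ≤ H := Real.one_le_rpow (by linarith) (by linarith)
  have hHL : H ≤ L := by
    calc H ≤ L ^ (1 : ℝ) := Real.rpow_le_rpow_of_exponent_le (by linarith) (by linarith)
      _ = L := Real.rpow_one L
  have hfl : (⌊H⌋₊ : ℝ) ≤ H := Nat.floor_le (by linarith)
  have hfl2 : H < ⌊H⌋₊ + 1 := Nat.lt_floor_add_one H
  set S : Finset ℕ := (Icc 1 (⌊H⌋₊ + 1)).filter Nat.Prime with hS
  have hSl : ∀ l ∈ S, l.Prime ∧ (l : ℝ) ≤ L ^ 2 := by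
    intro l hl
    obtain ⟨h2, h3⟩ := mem_filter.1 hl
    refine ⟨h3, ?_⟩
    have h4 : (l : ℝ) ≤ ⌊H⌋₊ + 1 := by exact_mod_cast (mem_Icc.1 h2).2
    nlinarith
  have hSc : (S.card : ℝ) ≤ L ^ (1 - e / 4) := by
    have h2 : (S.card : ℝ) ≤ ⌊H⌋₊ + 1 := by exact_mod_cast card_primes_le (⌊H⌋₊ + 1)
    have h3 : L ^ (1 - e / 4) = H * L ^ (e / 4) := by
      rw [hH, ← Real.rpow_add hL0]; congr 1; ring
    rw [h3]
    nlinarith
  obtain ⟨a1, a2⟩ := h1 N hodd hperf ((le_max_left _ _).trans hP) H hH1 (by nlinarith) S hSl hSc (by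
    intro p hp
    by_cases h2 : (N.factorization p + 1).minFac ≤ ⌊H⌋₊ + 1
    · left
      have hv : 0 < N.factorization p :=
        (Nat.prime_of_mem_primeFactors hp).factorization_pos_of_dvd hperf.2.ne'
          (Nat.dvd_of_mem_primeFactors hp)
      have h3 : (N.factorization p + 1).minFac.Prime := Nat.minFac_prime (by omega)
      exact ⟨_, mem_filter.2 ⟨mem_Icc.2 ⟨h3.one_lt.le, h2⟩, h3⟩, Nat.minFac_dvd _⟩
    · right
      have h3 : (N.factorization p + 1).minFac ≤ N.factorization p + 1 :=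
        Nat.minFac_le (by omega)
      have h4 : ⌊H⌋₊ + 1 ≤ N.factorization p := by omega
      have h5 : ((⌊H⌋₊ : ℝ) + 1) ≤ N.factorization p := by exact_mod_cast h4
      linarith)
  have hcH : L ^ (1 - e) ≤ c * H := by
    have h2 : H = L ^ (1 - e) * L ^ (e / 2) := by
      rw [hH, ← Real.rpow_add hL0]; congr 1; ring
    rw [div_le_iff₀ hc] at g3
    rw [h2]
    have h3 : 0 ≤ L ^ (1 - e) := by positivity
    nlinarith
  have hee : L ^ (1 - ε) ≤ L ^ (1 - e) :=
    Real.rpow_le_rpow_of_exponent_le (by linarith) (by linarith)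
  have hP2 : (0 : ℝ) ≤ (N.minFac : ℝ) ^ 2 := by positivity
  constructor
  · refine le_trans ?_ a1
    calc (N.minFac : ℝ) ^ 2 * L ^ (1 - ε) ≤ (N.minFac : ℝ) ^ 2 * (c * H) :=
          mul_le_mul_of_nonneg_left (hee.trans hcH) hP2
      _ = c * H * (N.minFac : ℝ) ^ 2 := by ring
  · refine le_trans ?_ a2
    rw [le_div_iff₀ hL0]
    have h2 : L ^ (-ε) * L = L ^ (1 - ε) := by
      nth_rewrite 2 [← Real.rpow_one L]
      rw [← Real.rpow_add hL0]; congr 1; ring
    calc (N.minFac : ℝ) ^ 2 * L ^ (-ε) * L = (N.minFac : ℝ) ^ 2 * (L ^ (-ε) * L) := by ring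
      _ = (N.minFac : ℝ) ^ 2 * L ^ (1 - ε) := by rw [h2]
      _ ≤ (N.minFac : ℝ) ^ 2 * (c * H) := mul_le_mul_of_nonneg_left (hee.trans hcH) hP2
      _ = c * H * (N.minFac : ℝ) ^ 2 := by ring

/-- **Few distinct exponents: size.** -/
theorem few_fin (ε : ℝ) (hε : 0 < ε) (A : ℕ) : ∃ P₀ : ℕ, ∀ N : ℕ, Odd N → N.Perfect →
    P₀ ≤ N.minFac →
    ((N.primeFactors.image N.factorization).card : ℝ) ≤ Real.log N.minFac ^ (1 - ε) →
    (∃ p ∈ N.primeFactors, Real.log N.minFac ^ A < (N.factorization p : ℝ)) ∧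
    (N.minFac : ℝ) ^ 2 * Real.log N.minFac ^ A ≤ Real.log N ∧
    (N.minFac : ℝ) ^ 2 * Real.log N.minFac ^ A ≤
      ∑ p ∈ N.primeFactors, (N.factorization p : ℝ) := by
  classical
  obtain ⟨c, hc, P1, h1⟩ := size ε hε (A + 3)
  obtain ⟨P3, h3⟩ := cover ε hε (A + 1)
  have htend : Tendsto (fun w : ℕ => Real.log (w : ℝ)) atTop atTop :=
    Real.tendsto_log_atTop.comp tendsto_natCast_atTop_atTop
  have hev : ∀ᶠ L : ℝ in atTop, 2 ≤ L ∧ 1 / c ≤ L := by
    filter_upwards [eventually_ge_atTop (2 : ℝ), eventually_ge_atTop (1 / c)] with L h1 h2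
    exact ⟨h1, h2⟩
  obtain ⟨P2, hP2⟩ := (eventually_atTop.1 (htend.eventually hev))
  refine ⟨max (max P1 P2) P3, fun N hodd hperf hP hfew => ?_⟩
  obtain ⟨g1, g2⟩ := hP2 N.minFac (((le_max_right _ _).trans (le_max_left _ _)).trans hP)
  set L : ℝ := Real.log (N.minFac : ℝ) with hL
  have hL0 : 0 < L := by linarith
  have hLA : ∀ k : ℕ, 1 ≤ L ^ k := fun k => one_le_pow₀ (by linarith)
  have hv : ∀ p ∈ N.primeFactors, 0 < N.factorization p := fun p hp =>
    (Nat.prime_of_mem_primeFactors hp).factorization_pos_of_dvd hperf.2.ne'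
      (Nat.dvd_of_mem_primeFactors hp)
  constructor
  · by_contra hcon
    push Not at hcon
    set S : Finset ℕ := (N.primeFactors.image N.factorization).image (fun v => (v + 1).minFac)
      with hS
    obtain ⟨p, hp, h4⟩ := h3 N hodd hperf ((le_max_right _ _).trans hP) S (by
      intro l hl
      obtain ⟨v, hv1, rfl⟩ := mem_image.1 hl
      obtain ⟨p, hp, rfl⟩ := mem_image.1 hv1
      have h5 := hv p hp
      refine ⟨Nat.minFac_prime (by omega), ?_⟩
      have h6 : ((N.factorization p + 1).minFac : ℝ) ≤ N.factorization p + 1 := by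
        exact_mod_cast Nat.minFac_le (by omega)
      have h7 := hcon p hp
      have h8 := hLA A
      rw [pow_succ]
      nlinarith)
      (le_trans (by exact_mod_cast card_image_le) hfew)
    exact h4 _ (mem_image.2 ⟨N.factorization p, mem_image.2 ⟨p, hp, rfl⟩, rfl⟩) (Nat.minFac_dvd _)
  · set H : ℝ := L ^ (A + 2) with hH
    have hH1 : 1 ≤ H := hLA _
    have hfl : (⌊H⌋₊ : ℝ) ≤ H := Nat.floor_le (by linarith)
    have hfl2 : H < ⌊H⌋₊ + 1 := Nat.lt_floor_add_one H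
    set S : Finset ℕ := ((N.primeFactors.image N.factorization).filter
      (fun v => (v + 1).minFac ≤ ⌊H⌋₊ + 1)).image (fun v => (v + 1).minFac) with hS
    have hSl : ∀ l ∈ S, l.Prime ∧ (l : ℝ) ≤ L ^ (A + 3) := by
      intro l hl
      obtain ⟨v, hv1, rfl⟩ := mem_image.1 hl
      obtain ⟨hv2, hv3⟩ := mem_filter.1 hv1
      obtain ⟨p, hp, rfl⟩ := mem_image.1 hv2
      have h5 := hv p hp
      refine ⟨Nat.minFac_prime (by omega), ?_⟩
      have h6 : ((N.factorization p + 1).minFac : ℝ) ≤ ⌊H⌋₊ + 1 := by exact_mod_cast hv3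
      have h7 : L ^ (A + 3) = H * L := by rw [hH, ← pow_succ]
      rw [h7]
      nlinarith
    have hSc : (S.card : ℝ) ≤ L ^ (1 - ε) := by
      refine le_trans ?_ hfew
      exact_mod_cast card_image_le.trans (card_filter_le _ _)
    obtain ⟨a1, a2⟩ := h1 N hodd hperf (((le_max_left _ _).trans (le_max_left _ _)).trans hP) H hH1
      (pow_le_pow_right₀ (by linarith) (by omega)) S hSl hSc (by
      intro p hp
      by_cases h2 : (N.factorization p + 1).minFac ≤ ⌊H⌋₊ + 1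
      · left
        exact ⟨_, mem_image.2 ⟨N.factorization p, mem_filter.2 ⟨mem_image.2 ⟨p, hp, rfl⟩, h2⟩, rfl⟩,
          Nat.minFac_dvd _⟩
      · right
        have h3 : (N.factorization p + 1).minFac ≤ N.factorization p + 1 :=
          Nat.minFac_le (by omega)
        have h4 : ⌊H⌋₊ + 1 ≤ N.factorization p := by omega
        have h5 : ((⌊H⌋₊ : ℝ) + 1) ≤ N.factorization p := by exact_mod_cast h4
        linarith)
    have hcL : 1 ≤ c * L := by
      rw [div_le_iff₀ hc] at g2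
      linarith
    have hP2 : (0 : ℝ) ≤ (N.minFac : ℝ) ^ 2 := by positivity
    have hA0 : 0 < L ^ A := by positivity
    have e1 : L ^ A ≤ c * H / L := by
      have : c * H / L = (c * L) * L ^ A := by
        rw [hH, pow_add]; field_simp
      rw [this]
      nlinarith
    have e2 : c * H / L ≤ c * H := div_le_self (by positivity) (by linarith)
    constructor
    · refine le_trans ?_ a1
      calc (N.minFac : ℝ) ^ 2 * L ^ A ≤ (N.minFac : ℝ) ^ 2 * (c * H) :=
            mul_le_mul_of_nonneg_left (e1.trans e2) hP2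
        _ = c * H * (N.minFac : ℝ) ^ 2 := by ring
    · refine le_trans ?_ a2
      calc (N.minFac : ℝ) ^ 2 * L ^ A ≤ (N.minFac : ℝ) ^ 2 * (c * H / L) :=
            mul_le_mul_of_nonneg_left e1 hP2
        _ = c * H * (N.minFac : ℝ) ^ 2 / L := by ring

/-- **An exponent without small prime factors.** -/
theorem rough_fin (ε : ℝ) (hε : 0 < ε) : ∃ P₀ : ℕ, ∀ N : ℕ, Odd N → N.Perfect →
    P₀ ≤ N.minFac → ∃ p ∈ N.primeFactors, ∀ l : ℕ, l.Prime → l ∣ N.factorization p + 1 →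
      Real.log N.minFac ^ (1 - ε) < l := by
  classical
  obtain ⟨P3, h3⟩ := cover ε hε 1
  have htend : Tendsto (fun w : ℕ => Real.log (w : ℝ)) atTop atTop :=
    Real.tendsto_log_atTop.comp tendsto_natCast_atTop_atTop
  obtain ⟨P2, hP2⟩ := (eventually_atTop.1 (htend.eventually (eventually_ge_atTop (1 : ℝ))))
  refine ⟨max P2 P3, fun N hodd hperf hP => ?_⟩
  have g1 := hP2 N.minFac ((le_max_left _ _).trans hP)
  set L : ℝ := Real.log (N.minFac : ℝ) with hL
  set H : ℝ := L ^ (1 - ε) with hH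
  have hH0 : 0 ≤ H := Real.rpow_nonneg (by linarith) _
  have hfl : (⌊H⌋₊ : ℝ) ≤ H := Nat.floor_le hH0
  have hHL : H ≤ L ^ 1 := by
    rw [pow_one]
    calc H ≤ L ^ (1 : ℝ) := Real.rpow_le_rpow_of_exponent_le g1 (by linarith)
      _ = L := Real.rpow_one L
  obtain ⟨p, hp, h4⟩ := h3 N hodd hperf ((le_max_right _ _).trans hP)
    ((Icc 1 ⌊H⌋₊).filter Nat.Prime) (by
      intro l hl
      obtain ⟨h5, h6⟩ := mem_filter.1 hl
      refine ⟨h6, ?_⟩
      have : (l : ℝ) ≤ ⌊H⌋₊ := by exact_mod_cast (mem_Icc.1 h5).2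
      linarith)
    (by
      have : (((Icc 1 ⌊H⌋₊).filter Nat.Prime).card : ℝ) ≤ ⌊H⌋₊ := by
        exact_mod_cast card_primes_le ⌊H⌋₊
      linarith)
  refine ⟨p, hp, fun l hl hld => ?_⟩
  by_contra hcon
  push Not at hcon
  exact h4 l (mem_filter.2 ⟨mem_Icc.2 ⟨hl.one_lt.le, Nat.le_floor hcon⟩, hl⟩) hld

end Pool.Agent.N672.Opn
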